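import Pool.Agent.H177R3.PerC

/-!
# Modulated exponential sums over an increasing sequence: small discrepancy up to a remainder
-/

set_option autoImplicit false

open Complex Filter Topology Set MeasureTheory
open scoped FourierTransform

namespace Run7.h613.QP

open H177.Lat

lemma KK_neg (e x : ℝ) : KK e (-x) = KK e x := by
  unfold KK
  congr 1
  ext u
  rw [mul_neg, Real.cos_neg]

lemma ee_im (x : ℝ) : (ee x).im = Real.sin (2 * Real.pi * x) := by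
  unfold ee
  rw [Complex.exp_ofReal_mul_I_im]

/-- the square of a sum -/
lemma sq_gen (I : Finset ℕ) (c : ℕ → ℂ) (y : ℕ → ℝ) (τ u : ℝ) :
    ‖∑ n ∈ I, c n * ee ((u - τ) * y n)‖ ^ 2 = ∑ n ∈ I, ∑ n' ∈ I,
      ((c n * (starRingEnd ℂ) (c n') * ee (-τ * (y n - y n'))).re * Real.cos (2 * Real.pi * u * (y n - y n')) -
        (c n * (starRingEnd ℂ) (c n') * ee (-τ * (y n - y n'))).im * Real.sin (2 * Real.pi * u * (y n - y n'))) := by
  have h1 : ‖∑ n ∈ I, c n * ee ((u - τ) * y n)‖ ^ 2 =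
      ((∑ n ∈ I, c n * ee ((u - τ) * y n)) * (starRingEnd ℂ) (∑ n ∈ I, c n * ee ((u - τ) * y n))).re := by
    rw [Complex.mul_conj, Complex.ofReal_re, Complex.normSq_eq_norm_sq]
  rw [h1, map_sum, Finset.sum_mul_sum, Complex.re_sum]
  refine Finset.sum_congr rfl fun n _ => ?_
  rw [Complex.re_sum]
  refine Finset.sum_congr rfl fun n' _ => ?_
  have h2 : c n * ee ((u - τ) * y n) * (starRingEnd ℂ) (c n' * ee ((u - τ) * y n')) =
      c n * (starRingEnd ℂ) (c n') * ee (-τ * (y n - y n')) * ee (u * (y n - y n')) := by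
    rw [map_mul, ee_conj]
    have h3 : ee ((u - τ) * y n) * ee (-((u - τ) * y n')) = ee (-τ * (y n - y n')) * ee (u * (y n - y n')) := by
      rw [← ee_add, ← ee_add]
      congr 1
      ring
    calc c n * ee ((u - τ) * y n) * ((starRingEnd ℂ) (c n') * ee (-((u - τ) * y n'))) =
          c n * (starRingEnd ℂ) (c n') * (ee ((u - τ) * y n) * ee (-((u - τ) * y n'))) := by ring
      _ = _ := by rw [h3]; ring
  rw [h2, Complex.mul_re, ee_re, ee_im, ← mul_assoc (2 * Real.pi) u]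

/-- the quadratic form as a sum over pairs -/
lemma quad_eq (I : Finset ℕ) (c : ℕ → ℂ) (y : ℕ → ℝ) {e : ℝ} (he : 0 < e) (τ : ℝ) :
    ∫ u, tri e u * ‖∑ n ∈ I, c n * ee ((u - τ) * y n)‖ ^ 2 = ∑ n ∈ I, ∑ n' ∈ I,
      (c n * (starRingEnd ℂ) (c n') * ee (-τ * (y n - y n'))).re * KK e (y n - y n') := by
  have h1 : ∀ u : ℝ, tri e u * ‖∑ n ∈ I, c n * ee ((u - τ) * y n)‖ ^ 2 = ∑ n ∈ I, ∑ n' ∈ I,
      ((c n * (starRingEnd ℂ) (c n') * ee (-τ * (y n - y n'))).re *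
        (tri e u * Real.cos (2 * Real.pi * u * (y n - y n'))) -
        (c n * (starRingEnd ℂ) (c n') * ee (-τ * (y n - y n'))).im *
        (tri e u * Real.sin (2 * Real.pi * u * (y n - y n')))) := by
    intro u
    rw [sq_gen, Finset.mul_sum]
    refine Finset.sum_congr rfl fun n _ => ?_
    rw [Finset.mul_sum]
    refine Finset.sum_congr rfl fun n' _ => ?_
    ring
  simp_rw [h1]
  rw [integral_finsetSum]
  · refine Finset.sum_congr rfl fun n _ => ?_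
    rw [integral_finsetSum]
    · refine Finset.sum_congr rfl fun n' _ => ?_
      rw [integral_sub ((tri_integrable he (by fun_prop)).const_mul _)
        ((tri_integrable he (by fun_prop)).const_mul _), integral_const_mul, integral_const_mul,
        tri_sin, mul_zero, sub_zero]
      rfl
    · intro n' _
      exact ((tri_integrable he (by fun_prop)).const_mul _).sub
        ((tri_integrable he (by fun_prop)).const_mul _)
  · intro n _
    refine integrable_finsetSum _ fun n' _ => ?_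
    exact ((tri_integrable he (by fun_prop)).const_mul _).sub
      ((tri_integrable he (by fun_prop)).const_mul _)

/-- the trivial bound -/
lemma quad_le (I : Finset ℕ) (c : ℕ → ℂ) (y : ℕ → ℝ) {e : ℝ} (he : 0 < e) (τ : ℝ) :
    ∫ u, tri e u * ‖∑ n ∈ I, c n * ee ((u - τ) * y n)‖ ^ 2 ≤
      ∑ n ∈ I, ‖c n‖ ^ 2 * ∑ n' ∈ I, KK e (y n - y n') := by
  rw [quad_eq I c y he τ]
  have h1 : ∀ n ∈ I, ∀ n' ∈ I, (c n * (starRingEnd ℂ) (c n') * ee (-τ * (y n - y n'))).re * KK e (y n - y n') ≤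
      1 / 2 * (‖c n‖ ^ 2 * KK e (y n - y n')) + 1 / 2 * (‖c n'‖ ^ 2 * KK e (y n' - y n)) := by
    intro n _ n' _
    have e1 : KK e (y n' - y n) = KK e (y n - y n') := by
      rw [← KK_neg, neg_sub]
    rw [e1]
    have h2 : (c n * (starRingEnd ℂ) (c n') * ee (-τ * (y n - y n'))).re ≤ ‖c n‖ * ‖c n'‖ := by
      refine (Complex.re_le_norm _).trans (le_of_eq ?_)
      rw [norm_mul, norm_mul, RCLike.norm_conj, ee_norm, mul_one]
    have h3 := KK_nonneg he (y n - y n')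
    have h4 : ‖c n‖ * ‖c n'‖ ≤ 1 / 2 * ‖c n‖ ^ 2 + 1 / 2 * ‖c n'‖ ^ 2 := by
      nlinarith [sq_nonneg (‖c n‖ - ‖c n'‖)]
    calc _ ≤ (1 / 2 * ‖c n‖ ^ 2 + 1 / 2 * ‖c n'‖ ^ 2) * KK e (y n - y n') :=
          mul_le_mul_of_nonneg_right (h2.trans h4) h3
      _ = _ := by ring
  refine (Finset.sum_le_sum fun n hn => Finset.sum_le_sum fun n' hn' => h1 n hn n' hn').trans (le_of_eq ?_)
  have h5 : ∑ n ∈ I, ∑ n' ∈ I, 1 / 2 * (‖c n'‖ ^ 2 * KK e (y n' - y n)) =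
      ∑ n ∈ I, ∑ n' ∈ I, 1 / 2 * (‖c n‖ ^ 2 * KK e (y n - y n')) := Finset.sum_comm
  have h6 : ∑ n ∈ I, ∑ n' ∈ I, (1 / 2 * (‖c n‖ ^ 2 * KK e (y n - y n')) + 1 / 2 * (‖c n'‖ ^ 2 * KK e (y n' - y n))) =
      ∑ n ∈ I, ∑ n' ∈ I, 1 / 2 * (‖c n‖ ^ 2 * KK e (y n - y n')) +
      ∑ n ∈ I, ∑ n' ∈ I, 1 / 2 * (‖c n'‖ ^ 2 * KK e (y n' - y n)) := by
    rw [← Finset.sum_add_distrib]
    exact Finset.sum_congr rfl fun n _ => Finset.sum_add_distrib
  rw [h6, h5, ← Finset.sum_add_distrib]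
  refine Finset.sum_congr rfl fun n _ => ?_
  rw [← Finset.sum_add_distrib, Finset.mul_sum]
  refine Finset.sum_congr rfl fun n' _ => ?_
  ring

/-- a constant plus increments of a bounded sequence -/
theorem mod_core (a b : ℕ) (hab : a < b) (y : ℕ → ℝ)
    (hy : ∀ n ∈ Finset.Ioc a b, ∀ m ∈ Finset.Ioc a b, n ≤ m → y n ≤ y m)
    (Q : ℕ → ℂ) (B : ℝ) (m0 : ℂ) (hQ : ∀ n, ‖Q n‖ ≤ B) {e : ℝ} (he : 0 < e) (τ : ℝ) :
    ∫ u, tri e u * ‖∑ n ∈ Finset.Ioc a b, (m0 + (Q (n + 1) - Q n)) * ee ((u - τ) * y n)‖ ^ 2 ≤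
    2 * ‖m0‖ ^ 2 * ∑ n ∈ Finset.Ioc a b, ∑ n' ∈ Finset.Ioc a b, KK e (y n - y n') *
      Real.cos (2 * Real.pi * τ * (y n - y n')) +
    (12 * B ^ 2 * e + 24 * Real.pi ^ 2 * (e + |τ|) ^ 2 * (B ^ 2 * (y b - y (a + 1)))) := by
  have hB : 0 ≤ B := (norm_nonneg _).trans (hQ 0)
  set m := b - (a + 1) with hm
  set Y : ℕ → ℝ := fun i => y (min (a + 1 + i) b) with hYdef
  have hY : Monotone Y := by
    intro i j hij
    simp only [hYdef]
    apply hy
    · rw [Finset.mem_Ioc]; omega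
    · rw [Finset.mem_Ioc]; omega
    · omega
  have hY0 : Y 0 = y (a + 1) := by
    simp only [hYdef]; congr 1; omega
  have hYm : Y m = y b := by
    simp only [hYdef]; congr 1; omega
  have hI : Finset.Ioc a b = Finset.Ico (a + 1) (a + 1 + (m + 1)) := by
    ext k; rw [Finset.mem_Ioc, Finset.mem_Ico]; omega
  set Q' : ℕ → ℂ := fun i => Q (a + 1 + i) with hQ'
  have hsplit : ∀ w : ℝ, ∑ n ∈ Finset.Ioc a b, (m0 + (Q (n + 1) - Q n)) * ee (w * y n) =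
      m0 * ∑ n ∈ Finset.Ioc a b, ee (w * y n) +
      ∑ i ∈ Finset.range (m + 1), (Q' (i + 1) - Q' i) * ee (w * Y i) := by
    intro w
    have h1 : ∑ n ∈ Finset.Ioc a b, (Q (n + 1) - Q n) * ee (w * y n) =
        ∑ i ∈ Finset.range (m + 1), (Q' (i + 1) - Q' i) * ee (w * Y i) := by
      rw [hI, Finset.sum_Ico_eq_sum_range]
      have e1 : a + 1 + (m + 1) - (a + 1) = m + 1 := by omega
      rw [e1]
      refine Finset.sum_congr rfl fun i hi => ?_
      rw [Finset.mem_range] at hi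
      have e2 : Y i = y (a + 1 + i) := by
        simp only [hYdef]; congr 1; omega
      rw [e2]
      rfl
    rw [← h1, Finset.mul_sum, ← Finset.sum_add_distrib]
    refine Finset.sum_congr rfl fun n _ => ?_
    ring
  obtain ⟨hint, hle⟩ := fourq_sq (fun i => Q' (i + 1)) B hB (fun i => hQ _) Y hY m
  set F : ℝ → ℝ := fun u => ‖𝓕 (stq (fun i => Q' (i + 1)) Y m) u‖ ^ 2 with hF
  have hpt : ∀ u : ℝ, tri e u * ‖∑ n ∈ Finset.Ioc a b, (m0 + (Q (n + 1) - Q n)) * ee ((u - τ) * y n)‖ ^ 2 ≤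
      2 * ‖m0‖ ^ 2 * (tri e u * ‖∑ n ∈ Finset.Ioc a b, ee (0 + (u - τ) * y n)‖ ^ 2) +
      (12 * B ^ 2 * (tri e u * Real.cos (2 * Real.pi * u * 0)) +
        24 * Real.pi ^ 2 * (e + |τ|) ^ 2 * F (τ - u)) := by
    intro u
    rw [hsplit, mul_zero, Real.cos_zero, mul_one]
    simp only [zero_add]
    have h1 := Q_bound Q' B (fun i => hQ _) Y hY m (u - τ)
    have e1 : -(u - τ) = τ - u := by ring
    rw [e1] at h1
    have hF0 : 0 ≤ F (τ - u) := by simp only [hF]; positivity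
    have hFF : ‖𝓕 (stq (fun i => Q' (i + 1)) Y m) (τ - u)‖ ^ 2 = F (τ - u) := rfl
    rw [hFF] at h1
    have ht0 := tri_nonneg e u
    have ht1 := tri_le_one he u
    set Z1 := m0 * ∑ n ∈ Finset.Ioc a b, ee ((u - τ) * y n) with hZ1
    set Z2 := ∑ i ∈ Finset.range (m + 1), (Q' (i + 1) - Q' i) * ee ((u - τ) * Y i) with hZ2
    have hZ : ‖Z1 + Z2‖ ^ 2 ≤ 2 * ‖Z1‖ ^ 2 + 2 * ‖Z2‖ ^ 2 := by
      have h5 := norm_add_le Z1 Z2
      have h6 : ‖Z1 + Z2‖ ^ 2 ≤ (‖Z1‖ + ‖Z2‖) ^ 2 := pow_le_pow_left₀ (norm_nonneg _) h5 2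
      nlinarith [sq_nonneg (‖Z1‖ - ‖Z2‖)]
    have hZ1' : ‖Z1‖ ^ 2 = ‖m0‖ ^ 2 * ‖∑ n ∈ Finset.Ioc a b, ee ((u - τ) * y n)‖ ^ 2 := by
      rw [hZ1, norm_mul, mul_pow]
    have hmain : tri e u * (2 * ‖Z2‖ ^ 2) ≤ 12 * B ^ 2 * tri e u +
        24 * Real.pi ^ 2 * (e + |τ|) ^ 2 * F (τ - u) := by
      rcases le_or_gt e |u| with h | h
      · rw [tri_zero he h]
        have : 0 ≤ 24 * Real.pi ^ 2 * (e + |τ|) ^ 2 * F (τ - u) := by positivity
        simpa using this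
      · have h2 : (2 * Real.pi * (u - τ)) ^ 2 ≤ 4 * Real.pi ^ 2 * (e + |τ|) ^ 2 := by
          have h3 : |u - τ| ≤ e + |τ| := (abs_sub _ _).trans (by linarith)
          have h4 : (u - τ) ^ 2 ≤ (e + |τ|) ^ 2 := by
            rw [← sq_abs (u - τ)]
            exact pow_le_pow_left₀ (abs_nonneg _) h3 2
          have h5 : (0 : ℝ) ≤ 4 * Real.pi ^ 2 := by positivity
          nlinarith
        calc tri e u * (2 * ‖Z2‖ ^ 2)
            ≤ tri e u * (2 * (6 * B ^ 2 + 3 * ((2 * Real.pi * (u - τ)) ^ 2 * F (τ - u)))) := by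
              gcongr
          _ ≤ tri e u * (2 * (6 * B ^ 2 + 3 * ((4 * Real.pi ^ 2 * (e + |τ|) ^ 2) * F (τ - u)))) := by
              gcongr
          _ = 12 * B ^ 2 * tri e u +
              tri e u * (24 * Real.pi ^ 2 * (e + |τ|) ^ 2 * F (τ - u)) := by ring
          _ ≤ 12 * B ^ 2 * tri e u +
              1 * (24 * Real.pi ^ 2 * (e + |τ|) ^ 2 * F (τ - u)) := by
              gcongr
          _ = _ := by ring
    calc tri e u * ‖Z1 + Z2‖ ^ 2 ≤ tri e u * (2 * ‖Z1‖ ^ 2 + 2 * ‖Z2‖ ^ 2) :=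
          mul_le_mul_of_nonneg_left hZ ht0
      _ = 2 * ‖m0‖ ^ 2 * (tri e u * ‖∑ n ∈ Finset.Ioc a b, ee ((u - τ) * y n)‖ ^ 2) +
          tri e u * (2 * ‖Z2‖ ^ 2) := by rw [hZ1']; ring
      _ ≤ _ := by linarith
  have hcontA : ∀ c : ℕ → ℂ, Continuous fun u : ℝ =>
      ‖∑ n ∈ Finset.Ioc a b, c n * ee ((u - τ) * y n)‖ ^ 2 := by
    intro c
    apply Continuous.pow
    apply Continuous.norm
    exact continuous_finsetSum _ fun n _ => continuous_const.mul (ee_cont (by fun_prop))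
  have hcontB : Continuous fun u : ℝ => ‖∑ n ∈ Finset.Ioc a b, ee (0 + (u - τ) * y n)‖ ^ 2 := by
    apply Continuous.pow
    apply Continuous.norm
    exact continuous_finsetSum _ fun n _ => ee_cont (by fun_prop)
  have hzero := kernel_eq2 (Finset.Ioc a b) y (fun _ => 0) he τ
  have hzero' : ∑ n ∈ Finset.Ioc a b, ∑ n' ∈ Finset.Ioc a b, KK e (y n - y n') *
      Real.cos (2 * Real.pi * τ * (y n - y n')) =
      ∫ u, tri e u * ‖∑ n ∈ Finset.Ioc a b, ee (0 + (u - τ) * y n)‖ ^ 2 := by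
    rw [← hzero]
    refine Finset.sum_congr rfl fun n _ => Finset.sum_congr rfl fun n' _ => ?_
    congr 1
    rw [← Real.cos_neg]
    congr 1
    ring
  rw [hzero']
  have hi2 : Integrable fun u : ℝ => F (τ - u) := hint.comp_sub_left τ
  have hi0 := (tri_integrable he (g := fun u => Real.cos (2 * Real.pi * u * 0))
    (by fun_prop)).const_mul (12 * B ^ 2)
  have hi1 := (tri_integrable he hcontB).const_mul (2 * ‖m0‖ ^ 2)
  have hi3 := hi2.const_mul (24 * Real.pi ^ 2 * (e + |τ|) ^ 2)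
  have hi4 : Integrable fun u : ℝ => 12 * B ^ 2 * (tri e u * Real.cos (2 * Real.pi * u * 0)) +
      24 * Real.pi ^ 2 * (e + |τ|) ^ 2 * F (τ - u) := hi0.add hi3
  refine (integral_mono (tri_integrable he (hcontA _)) (hi1.add hi4) hpt).trans ?_
  simp only [Pi.add_apply]
  rw [integral_add hi1 hi4, integral_add hi0 hi3, integral_const_mul, integral_const_mul,
    integral_const_mul]
  have h8 : ∫ u, tri e u * Real.cos (2 * Real.pi * u * 0) = e := KK_zero he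
  have h9 : ∫ u, F (τ - u) = ∫ u, F u := integral_sub_left_eq_self F volume τ
  rw [h8, h9]
  rw [hY0, hYm] at hle
  have h10 : 0 ≤ 24 * Real.pi ^ 2 * (e + |τ|) ^ 2 := by positivity
  have h11 := mul_le_mul_of_nonneg_left hle h10
  linarith

/-- **the modulated sum**, with a remainder -/
theorem modulated2 (a b : ℕ) (hab : a < b) (y ψ : ℕ → ℝ)
    (hy : ∀ n ∈ Finset.Ioc a b, ∀ m ∈ Finset.Ioc a b, n ≤ m → y n ≤ y m)
    (Q A : ℕ → ℂ) (B : ℝ) (m0 : ℂ) (hQ : ∀ n, ‖Q n‖ ≤ B)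
    (hP : ∀ n, ee (ψ n) = m0 + (Q (n + 1) - Q n) + A n)
    {e : ℝ} (he : 0 < e) (τ : ℝ) :
    ∑ n ∈ Finset.Ioc a b, ∑ n' ∈ Finset.Ioc a b, KK e (y n - y n') *
      Real.cos (2 * Real.pi * ((ψ n - ψ n') - τ * (y n - y n'))) ≤
    2 * (2 * ‖m0‖ ^ 2 * ∑ n ∈ Finset.Ioc a b, ∑ n' ∈ Finset.Ioc a b, KK e (y n - y n') *
      Real.cos (2 * Real.pi * τ * (y n - y n')) +
    (12 * B ^ 2 * e + 24 * Real.pi ^ 2 * (e + |τ|) ^ 2 * (B ^ 2 * (y b - y (a + 1))))) +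
    2 * ∑ n ∈ Finset.Ioc a b, ‖A n‖ ^ 2 * ∑ n' ∈ Finset.Ioc a b, KK e (y n - y n') := by
  rw [kernel_eq2 (Finset.Ioc a b) y ψ he τ]
  have hcontA : ∀ c : ℕ → ℂ, Continuous fun u : ℝ =>
      ‖∑ n ∈ Finset.Ioc a b, c n * ee ((u - τ) * y n)‖ ^ 2 := by
    intro c
    apply Continuous.pow
    apply Continuous.norm
    exact continuous_finsetSum _ fun n _ => continuous_const.mul (ee_cont (by fun_prop))
  have hcontB : Continuous fun u : ℝ => ‖∑ n ∈ Finset.Ioc a b, ee (ψ n + (u - τ) * y n)‖ ^ 2 := by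
    apply Continuous.pow
    apply Continuous.norm
    exact continuous_finsetSum _ fun n _ => ee_cont (by fun_prop)
  have h1 := mod_core a b hab y hy Q B m0 hQ he τ
  have h2 := quad_le (Finset.Ioc a b) A y he τ
  have hi1 := (tri_integrable he (hcontA (fun n => m0 + (Q (n + 1) - Q n)))).const_mul 2
  have hi2 := (tri_integrable he (hcontA A)).const_mul 2
  have hpt : ∀ u : ℝ, tri e u * ‖∑ n ∈ Finset.Ioc a b, ee (ψ n + (u - τ) * y n)‖ ^ 2 ≤
      2 * (tri e u * ‖∑ n ∈ Finset.Ioc a b, (m0 + (Q (n + 1) - Q n)) * ee ((u - τ) * y n)‖ ^ 2) +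
      2 * (tri e u * ‖∑ n ∈ Finset.Ioc a b, A n * ee ((u - τ) * y n)‖ ^ 2) := by
    intro u
    have e1 : ∑ n ∈ Finset.Ioc a b, ee (ψ n + (u - τ) * y n) =
        ∑ n ∈ Finset.Ioc a b, (m0 + (Q (n + 1) - Q n)) * ee ((u - τ) * y n) +
        ∑ n ∈ Finset.Ioc a b, A n * ee ((u - τ) * y n) := by
      rw [← Finset.sum_add_distrib]
      refine Finset.sum_congr rfl fun n _ => ?_
      rw [ee_add, hP n]
      ring
    rw [e1]
    set Z1 := ∑ n ∈ Finset.Ioc a b, (m0 + (Q (n + 1) - Q n)) * ee ((u - τ) * y n)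
    set Z2 := ∑ n ∈ Finset.Ioc a b, A n * ee ((u - τ) * y n)
    have hZ : ‖Z1 + Z2‖ ^ 2 ≤ 2 * ‖Z1‖ ^ 2 + 2 * ‖Z2‖ ^ 2 := by
      have h5 := norm_add_le Z1 Z2
      have h6 : ‖Z1 + Z2‖ ^ 2 ≤ (‖Z1‖ + ‖Z2‖) ^ 2 := pow_le_pow_left₀ (norm_nonneg _) h5 2
      nlinarith [sq_nonneg (‖Z1‖ - ‖Z2‖)]
    have h7 := mul_le_mul_of_nonneg_left hZ (tri_nonneg e u)
    linarith
  refine (integral_mono (tri_integrable he hcontB) (hi1.add hi2) hpt).trans ?_
  simp only [Pi.add_apply]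
  rw [integral_add hi1 hi2, integral_const_mul, integral_const_mul]
  linarith

end Run7.h613.QP
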