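import Pool.Agent.Run7.h613.QP.A

/-!
# The total and the exceptional mass of the kernel, and the decomposition of a quiet sequence
-/

set_option autoImplicit false

open Complex Filter Topology Set MeasureTheory

namespace Run7.h613.QP

open H370 hiding PP
open H370.A3 SP H370.A2
open SG (ord NZ zmult ZS)
open H177.Lat

lemma tri0_zero {e : ℝ} (he : 0 < e) (x : ℝ) (hx : e ≤ |x|) : tri e x = 0 := tri_zero he hx

lemma RR_tri0 {e : ℝ} (he : 0 < e) (x : ℝ) : RR (tri e) e x = KK e x := by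
  unfold RR KK
  have h : ∫ α in (-e)..e, tri e α * Real.cos (2 * Real.pi * α * x) =
      ∫ α, tri e α * Real.cos (2 * Real.pi * α * x) := by
    apply intervalIntegral.integral_eq_integral_of_support_subset
    intro α hα
    by_contra h
    apply hα
    have : e ≤ |α| := by
      by_contra h2
      push Not at h2
      obtain ⟨h3, h4⟩ := abs_lt.1 h2
      exact h ⟨h3, h4.le⟩
    show tri e α * Real.cos (2 * Real.pi * α * x) = 0
    rw [tri_zero he this, zero_mul]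
  exact h

lemma tri0_main {e : ℝ} (he : 0 < e) (he1 : e ≤ 1 / 2) :
    tri e 0 + ∫ α in (-e)..e, |α| * tri e α ≤ 2 := by
  have h0 : tri e 0 = 1 := by
    rw [tri_in he (by rw [abs_zero]; exact he.le), abs_zero, zero_div, sub_zero]
  have h1 : ∫ α in (-e)..e, |α| * tri e α ≤ ∫ _α in (-e)..e, e := by
    refine intervalIntegral.integral_mono_on (by linarith) ?_ ?_ ?_
    · exact (continuous_abs.mul (tri_cont e)).intervalIntegrable _ _
    · exact continuous_const.intervalIntegrable _ _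
    · intro α hα
      have h2 : |α| ≤ e := abs_le.2 ⟨hα.1, hα.2⟩
      calc |α| * tri e α ≤ e * 1 := mul_le_mul h2 (tri_le_one he α) (tri_nonneg e α) he.le
        _ = e := mul_one e
  rw [intervalIntegral.integral_const, smul_eq_mul] at h1
  rw [h0]
  nlinarith

/-- the total mass of the kernel, in almost all windows -/
theorem total (hRH : RiemannHypothesis) (η0 e : ℝ) (hη0 : 0 < η0) (hη1 : η0 < 1) (he : 0 < e) (he1 : e ≤ 1 / 2) :
    ∃ δ : ℝ, 0 < δ ∧ ∃ T0 : ℝ, 10 ≤ T0 ∧ ∀ T : ℝ, T0 ≤ T → ∀ H : ℝ, T ^ η0 ≤ H → H ≤ T / 8 →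
      volume {t : ℝ | t ∈ Set.Icc T (2 * T) ∧
        ¬ (∑ n ∈ Finset.Ioc (NZ t) (NZ (t + H)), ∑ n' ∈ Finset.Ioc (NZ t) (NZ (t + H)), KK e (yy T n - yy T n') ≤
          3 * (H * Real.log T / (2 * Real.pi)))} ≤ ENNReal.ofReal (T ^ (1 - δ)) := by
  obtain ⟨δ, hδ, T1, hT1, hP⟩ := almost_smooth hRH η0 e 1 hη0 hη1 he (by linarith) one_pos (tri e) (1 / e)
    (fun x y => tri_lip he x y) (fun x hx => tri_zero he hx) (1 / e) (fun x => by
      rw [RR_tri0 he, abs_of_nonneg (KK_nonneg he x)]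
      exact KK_sq he x)
  refine ⟨δ, hδ, T1, hT1, fun T hT H hH1 hH2 => (measure_mono ?_).trans (hP T hT H hH1 hH2)⟩
  rintro t ⟨ht1, ht2⟩
  refine ⟨ht1, fun hcon => ht2 ?_⟩
  have hT10 : 10 ≤ T := hT1.trans hT
  have hA1 : 1 ≤ t := by linarith [ht1.1]
  rw [PP_conv hRH hA1] at hcon
  have h1 := (abs_le.1 hcon).2
  have hpi := Real.pi_pos
  have hL : 0 < Real.log T := Real.log_pos (by linarith)
  have hH0 : 0 ≤ H := (Real.rpow_nonneg (by linarith) _).trans hH1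
  set M := H * Real.log T / (2 * Real.pi) with hM
  have hM0 : 0 ≤ M := by positivity
  have h2 := mul_le_mul_of_nonneg_left (tri0_main he he1) hM0
  have h3 : ∑ n ∈ Finset.Ioc (NZ t) (NZ (t + H)), ∑ n' ∈ Finset.Ioc (NZ t) (NZ (t + H)), KK e (yy T n - yy T n') =
      ∑ n ∈ Finset.Ioc (NZ t) (NZ (t + H)), ∑ n' ∈ Finset.Ioc (NZ t) (NZ (t + H)),
        RR (tri e) e (ord n * Real.log T / (2 * Real.pi) - ord n' * Real.log T / (2 * Real.pi)) := by
    refine Finset.sum_congr rfl fun n _ => Finset.sum_congr rfl fun n' _ => ?_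
    rw [RR_tri0 he]
    rfl
  rw [h3]
  linarith

/-- the mass near one point -/
lemma W_le (I : Finset ℕ) (y : ℕ → ℝ) (R : ℕ) (hR : 2 ≤ R) {e : ℝ} (he : 0 < e) (n : ℕ) :
    ∑ n' ∈ I, KK e (y n - y n') ≤ e * (kI I y R n : ℝ) +
      1 / e * ∑ n' ∈ I.filter (fun n' => (R : ℝ) < |y n - y n'|), 1 / (y n - y n') ^ 2 := by
  classical
  rw [← Finset.sum_filter_add_sum_filter_not I (fun n' => |y n - y n'| ≤ (R : ℝ))]
  refine add_le_add ?_ ?_
  · refine (Finset.sum_le_sum fun n' _ => KK_le he (y n - y n')).trans (le_of_eq ?_)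
    rw [Finset.sum_const, nsmul_eq_mul, mul_comm]
    rfl
  · rw [Finset.mul_sum]
    have hf : I.filter (fun n' => ¬ |y n - y n'| ≤ (R : ℝ)) = I.filter (fun n' => (R : ℝ) < |y n - y n'|) := by
      refine Finset.filter_congr fun n' _ => ?_
      rw [not_le]
    rw [hf]
    refine Finset.sum_le_sum fun n' hn' => ?_
    have h1 := (Finset.mem_filter.1 hn').2
    have hR0 : (0 : ℝ) < R := by
      have : 0 < R := by omega
      exact_mod_cast this
    have h2 : 0 < (y n - y n') ^ 2 := by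
      rw [← sq_abs]
      have := hR0.trans h1
      positivity
    have h3 := KK_sq he (y n - y n')
    rw [mul_one_div, le_div_iff₀ h2]
    exact h3

/-- the mass near an exceptional set -/
lemma W_exc (I E : Finset ℕ) (hE : E ⊆ I) (y : ℕ → ℝ) (R : ℕ) (hR : 2 ≤ R) {e C1 CR M ρ : ℝ} (he : 0 < e) (hM : 0 ≤ M)
    (hCR : 0 ≤ CR) (hρ : 0 ≤ ρ)
    (h1 : ∑ n ∈ I, (kI I y 1 n : ℝ) ^ 2 ≤ C1 * M) (hk : ∑ n ∈ I, (kI I y R n : ℝ) ^ 2 ≤ CR * M)
    (hEc : (E.card : ℝ) ≤ ρ ^ 2 * M) :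
    ∑ n ∈ E, ∑ n' ∈ I, KK e (y n - y n') ≤ (e * (ρ * Real.sqrt CR) + 16 * C1 / (e * R)) * M := by
  classical
  have hR0 : (0 : ℝ) < R := by
    have : 0 < R := by omega
    exact_mod_cast this
  refine (Finset.sum_le_sum fun n _ => W_le I y R hR he n).trans ?_
  rw [Finset.sum_add_distrib, ← Finset.mul_sum, ← Finset.mul_sum, add_mul]
  refine add_le_add ?_ ?_
  · have h2 := cs_card I E hE (fun n => kI I y R n) (CR * M) hk
    have h3 : (∑ n ∈ E, (kI I y R n : ℝ)) ^ 2 ≤ (ρ * Real.sqrt CR * M) ^ 2 := by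
      refine h2.trans ?_
      calc (E.card : ℝ) * (CR * M) ≤ ρ ^ 2 * M * (CR * M) := mul_le_mul_of_nonneg_right hEc (by positivity)
        _ = ρ ^ 2 * (Real.sqrt CR) ^ 2 * M ^ 2 := by rw [Real.sq_sqrt hCR]; ring
        _ = _ := by ring
    have h4 : ∑ n ∈ E, (kI I y R n : ℝ) ≤ ρ * Real.sqrt CR * M := by
      refine le_of_sq_le_sq h3 ?_
      positivity
    calc e * ∑ n ∈ E, (kI I y R n : ℝ) ≤ e * (ρ * Real.sqrt CR * M) := mul_le_mul_of_nonneg_left h4 he.le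
      _ = _ := by ring
  · have h5 : ∑ n ∈ E, ∑ n' ∈ I.filter (fun n' => (R : ℝ) < |y n - y n'|), 1 / (y n - y n') ^ 2 ≤
        ∑ n ∈ I, ∑ n' ∈ I.filter (fun n' => (R : ℝ) < |y n - y n'|), 1 / (y n - y n') ^ 2 :=
      Finset.sum_le_sum_of_subset_of_nonneg hE fun n _ _ => Finset.sum_nonneg fun n' _ => by positivity
    have h6 := far_pairs I y R hR
    have h7 : ∑ n ∈ I, (kI I y 1 n : ℝ) ≤ C1 * M := by
      refine le_trans (Finset.sum_le_sum fun n _ => ?_) h1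
      have : kI I y 1 n ≤ (kI I y 1 n) ^ 2 := Nat.le_self_pow (by norm_num) _
      exact_mod_cast this
    have h8 := h5.trans (h6.trans (mul_le_mul_of_nonneg_left h7 (by positivity)))
    calc 1 / e * ∑ n ∈ E, ∑ n' ∈ I.filter (fun n' => (R : ℝ) < |y n - y n'|), 1 / (y n - y n') ^ 2 ≤
          1 / e * (16 / R * (C1 * M)) := mul_le_mul_of_nonneg_left h8 (by positivity)
      _ = 16 * C1 / (e * R) * M := by field_simp

/-- block sums -/
noncomputable def BS (P : ℕ → ℂ) (m0 : ℂ) (n j : ℕ) : ℂ := ∑ i ∈ Finset.range j, (P (n + i) - m0)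

lemma BS_step (P : ℕ → ℂ) (m0 : ℂ) (n j : ℕ) : BS P m0 (n + 1) j = BS P m0 n (j + 1) - (P n - m0) := by
  unfold BS
  rw [Finset.sum_range_succ' (fun i => P (n + i) - m0)]
  simp only [add_zero, add_sub_cancel_right]
  refine Finset.sum_congr rfl fun i _ => ?_
  rw [show n + 1 + i = n + (i + 1) by omega]

/-- the average of the block sums -/
noncomputable def Q0 (P : ℕ → ℂ) (m0 : ℂ) (L n : ℕ) : ℂ := -((L : ℂ)⁻¹ * ∑ j ∈ Finset.range L, BS P m0 n j)

lemma Q0_step (P : ℕ → ℂ) (m0 : ℂ) {L : ℕ} (hL : 1 ≤ L) (n : ℕ) :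
    Q0 P m0 L (n + 1) - Q0 P m0 L n = (P n - m0) - (L : ℂ)⁻¹ * BS P m0 n L := by
  have hL0 : (L : ℂ) ≠ 0 := by
    have : L ≠ 0 := by omega
    exact_mod_cast this
  have h1 : ∑ j ∈ Finset.range L, BS P m0 (n + 1) j =
      ∑ j ∈ Finset.range L, BS P m0 n j + BS P m0 n L - L * (P n - m0) := by
    have h2 : ∑ j ∈ Finset.range L, BS P m0 n (j + 1) = ∑ j ∈ Finset.range L, BS P m0 n j + BS P m0 n L := by
      have e1 := Finset.sum_range_succ (fun j => BS P m0 n j) L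
      have e2 := Finset.sum_range_succ' (fun j => BS P m0 n j) L
      rw [e2] at e1
      have e3 : BS P m0 n 0 = 0 := by unfold BS; simp
      rw [e3, add_zero] at e1
      exact e1
    rw [Finset.sum_congr rfl fun j _ => BS_step P m0 n j, Finset.sum_sub_distrib, h2, Finset.sum_const, Finset.card_range,
      nsmul_eq_mul]
  unfold Q0
  rw [h1]
  have h3 : (L : ℂ)⁻¹ * (L * (P n - m0)) = P n - m0 := by rw [← mul_assoc, inv_mul_cancel₀ hL0, one_mul]
  linear_combination h3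

/-- the block sums at `n` are at most `B` -/
def Quiet (P : ℕ → ℂ) (m0 : ℂ) (L : ℕ) (B : ℝ) (n : ℕ) : Prop := ∀ j : ℕ, j ≤ L → ‖BS P m0 n j‖ ≤ B

lemma Q0_le {P : ℕ → ℂ} {m0 : ℂ} {L : ℕ} (hL : 1 ≤ L) {B : ℝ} {n : ℕ} (h : Quiet P m0 L B n) : ‖Q0 P m0 L n‖ ≤ B := by
  have hL0 : (0 : ℝ) < L := by exact_mod_cast hL
  unfold Q0
  rw [norm_neg, norm_mul, norm_inv, Complex.norm_natCast, inv_mul_le_iff₀ hL0]
  refine (norm_sum_le _ _).trans ?_
  refine (Finset.sum_le_sum fun j hj => h j (Finset.mem_range.1 hj).le).trans (le_of_eq ?_)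
  rw [Finset.sum_const, Finset.card_range, nsmul_eq_mul]

open Classical in
/-- the decomposition of a sequence which is quiet at most places -/
theorem decomp (P : ℕ → ℂ) (hP : ∀ n, ‖P n‖ ≤ 1) (m0 : ℂ) {L : ℕ} (hL : 1 ≤ L) {B : ℝ} (hB : 0 ≤ B) :
    ∃ Q A : ℕ → ℂ, (∀ n, ‖Q n‖ ≤ B) ∧ (∀ n, P n = m0 + (Q (n + 1) - Q n) + A n) ∧
      (∀ n, ‖A n‖ ≤ 1 + ‖m0‖ + 2 * B) ∧
      ∀ n, Quiet P m0 L B n → Quiet P m0 L B (n + 1) → ‖A n‖ ≤ B / L := by
  have hL0 : (0 : ℝ) < L := by exact_mod_cast hL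
  set Q : ℕ → ℂ := fun n => if Quiet P m0 L B n then Q0 P m0 L n else 0 with hQ
  have hQn : ∀ n, ‖Q n‖ ≤ B := by
    intro n
    simp only [hQ]
    split_ifs with h
    · exact Q0_le hL h
    · rw [norm_zero]; exact hB
  refine ⟨Q, fun n => P n - (m0 + (Q (n + 1) - Q n)), hQn, fun n => by ring, fun n => ?_, fun n h1 h2 => ?_⟩
  · have e1 := norm_sub_le (P n) (m0 + (Q (n + 1) - Q n))
    have e2 := norm_add_le m0 (Q (n + 1) - Q n)
    have e3 := norm_sub_le (Q (n + 1)) (Q n)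
    linarith [hP n, hQn n, hQn (n + 1)]
  · have e1 : P n - (m0 + (Q (n + 1) - Q n)) = (L : ℂ)⁻¹ * BS P m0 n L := by
      simp only [hQ]
      rw [if_pos h1, if_pos h2, Q0_step P m0 hL n]
      ring
    show ‖P n - (m0 + (Q (n + 1) - Q n))‖ ≤ B / L
    rw [e1, norm_mul, norm_inv, Complex.norm_natCast, inv_mul_eq_div]
    exact div_le_div_of_nonneg_right (h1 L le_rfl) hL0.le

end Run7.h613.QP
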