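import Pool.Agent.Run7.h613.QP.C1

/-!
# Exclusion of quiet patterns: the bad gaps at the local scale
-/

set_option autoImplicit false

open Complex Filter Topology Set MeasureTheory

namespace Run7.h613.QP

open H370 hiding PP
open H370.A3 SP H370.A2
open SG (ord NZ zmult ZS)
open H177.Lat

/-- many gaps away from a quiet pattern -/
theorem bad6 (hRH : RiemannHypothesis) (θ : ℝ) (hθ : 0 < θ) (hθ1 : θ ≤ 1) :
    ∃ L0 : ℕ, 1 ≤ L0 ∧ ∀ L : ℕ, L0 ≤ L → ∃ ρ c ε δ : ℝ, 0 < ρ ∧ 0 < c ∧ 0 < ε ∧ 0 < δ ∧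
      ∃ T0 : ℝ, 100 ≤ T0 ∧ ∀ (α : ℕ → ℝ) (m0 : ℂ), ‖m0‖ ≤ 2 → ∀ T : ℝ, T0 ≤ T → ∀ N : ℕ, NZ (3 * T) + 2 ≤ N →
      (loud (fun n => ee (θ * sq α n)) m0 L (Bd θ L) N : ℝ) ≤ ρ * (T * Real.log T) →
      volume {t : ℝ | t ∈ Set.Icc T (2 * T) ∧
        ¬ (c * (T / 8 * Real.log T / (2 * Real.pi)) ≤
          ((Bad (NZ t) (NZ (t + T / 8)) θ ε (v2 α T)).card : ℝ))} ≤
        ENNReal.ofReal (T ^ (1 - δ)) := by
  classical
  have hpi := Real.pi_pos
  have hpi2 : Real.pi ^ 2 ≤ 10 := by nlinarith [Real.pi_lt_d2, Real.pi_pos]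
  refine ⟨⌈1536 / θ⌉₊ + 1, by omega, fun L hL => ?_⟩
  have hL1 : 1 ≤ L := by omega
  have hLr : (0 : ℝ) < L := by exact_mod_cast hL1
  have hLbig : 1536 / θ ≤ L := by
    have h1 := Nat.le_ceil (1536 / θ)
    have h2 : ((⌈1536 / θ⌉₊ + 1 : ℕ) : ℝ) ≤ L := by exact_mod_cast hL
    push_cast at h2
    linarith
  obtain ⟨e, he⟩ : ∃ e : ℝ, e = 1 / (L : ℝ) := ⟨_, rfl⟩
  have he0 : 0 < e := by rw [he]; positivity
  have heL : e * L = 1 := by rw [he]; field_simp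
  have he1 : e ≤ θ / 1536 := by
    rw [he, div_le_div_iff₀ hLr (by norm_num)]
    rw [div_le_iff₀ hθ] at hLbig
    linarith
  obtain ⟨B, hBdef⟩ : ∃ B : ℝ, B = Bd θ L := ⟨_, rfl⟩
  have hB : 0 ≤ B := by rw [hBdef]; exact Bd_nonneg θ L
  have hB2 : B ^ 2 = θ * L / 160000 := by rw [hBdef]; exact Bd_sq hθ.le L
  have hBe : B ^ 2 * e = θ / 160000 := by
    rw [hB2]
    calc θ * L / 160000 * e = θ / 160000 * (e * L) := by ring
      _ = _ := by rw [heL, mul_one]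
  obtain ⟨KA, hKA⟩ : ∃ KA : ℝ, KA = 3 + 2 * B := ⟨_, rfl⟩
  have hKA0 : 0 < KA := by rw [hKA]; positivity
  obtain ⟨θ', hθ'⟩ : ∃ θ' : ℝ, θ' = θ - 2 * e := ⟨_, rfl⟩
  obtain ⟨μ, hμ⟩ : ∃ μ : ℝ, μ = θ - e := ⟨_, rfl⟩
  obtain ⟨η0, hη⟩ : ∃ η0 : ℝ, η0 = 1 - e := ⟨_, rfl⟩
  have hη0 : 0 < η0 := by rw [hη]; linarith
  have hη1 : η0 < 1 := by rw [hη]; linarith
  have k1 : e ≤ θ' := by rw [hθ']; linarith
  have k2 : θ' + e ≤ μ := by rw [hθ', hμ]; linarith
  have hμ0 : 0 < μ := by linarith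
  obtain ⟨κ, hκ⟩ : ∃ κ : ℝ, κ = θ / 4 := ⟨_, rfl⟩
  have hκ0 : 0 < κ := by rw [hκ]; positivity
  obtain ⟨D, hD⟩ : ∃ D : ℝ, D = 1 / e ^ 2 := ⟨_, rfl⟩
  have hD0 : 0 ≤ D := by rw [hD]; positivity
  obtain ⟨δ, hδ, T1, hT1, hP⟩ := almost_smooth hRH η0 μ (θ * e / 8) hη0 hη1 hμ0
    (by rw [hμ, hη]; linarith) (by positivity) (fun x => tri e (x - θ')) (1 / e)
    (fun x y => by
      have h1 := tri_lip he0 (x - θ') (y - θ')
      have e1 : x - θ' - (y - θ') = x - y := by ring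
      rw [e1] at h1
      exact h1)
    (tri1_zero he0 k1 k2) (1 / e) (fun x => by
      rw [RR_tri1 he0 k1 k2, abs_mul, abs_of_nonneg (KK_nonneg he0 x)]
      have h1 := KK_sq he0 x
      have h2 := Real.abs_cos_le_one (2 * Real.pi * θ' * x)
      have h3 : 0 ≤ KK e x * x ^ 2 := mul_nonneg (KK_nonneg he0 x) (sq_nonneg _)
      calc |Real.cos (2 * Real.pi * θ' * x)| * KK e x * x ^ 2 =
            |Real.cos (2 * Real.pi * θ' * x)| * (KK e x * x ^ 2) := by ring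
        _ ≤ 1 * (KK e x * x ^ 2) := mul_le_mul_of_nonneg_right h2 h3
        _ ≤ 1 / e := by linarith)
  have q1 : e ≤ 2 * e := by linarith
  have q2 : 2 * e + e ≤ 3 * e := by linarith
  obtain ⟨δ', hδ', T1', hT1', hP'⟩ := almost_smooth hRH η0 (3 * e) (e ^ 2) hη0 hη1 (by positivity)
    (by rw [hη]; linarith) (by positivity) (fun x => tri e (x - 2 * e)) (1 / e)
    (fun x y => by
      have h1 := tri_lip he0 (x - 2 * e) (y - 2 * e)
      have e1 : x - 2 * e - (y - 2 * e) = x - y := by ring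
      rw [e1] at h1
      exact h1)
    (tri1_zero he0 q1 q2) (1 / e) (fun x => by
      rw [RR_tri1 he0 q1 q2, abs_mul, abs_of_nonneg (KK_nonneg he0 x)]
      have h1 := KK_sq he0 x
      have h2 := Real.abs_cos_le_one (2 * Real.pi * (2 * e) * x)
      have h3 : 0 ≤ KK e x * x ^ 2 := mul_nonneg (KK_nonneg he0 x) (sq_nonneg _)
      calc |Real.cos (2 * Real.pi * (2 * e) * x)| * KK e x * x ^ 2 =
            |Real.cos (2 * Real.pi * (2 * e) * x)| * (KK e x * x ^ 2) := by ring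
        _ ≤ 1 * (KK e x * x ^ 2) := mul_le_mul_of_nonneg_right h2 h3
        _ ≤ 1 / e := by linarith)
  obtain ⟨δt, hδt, T1t, hT1t, hPt⟩ := total hRH η0 e hη0 hη1 he0 (by linarith)
  obtain ⟨C1, T2, hC1, hT2, h1⟩ := third hRH η0 1 hη0 hη1 zero_le_one
  obtain ⟨R, hR2, hRb, hRc⟩ : ∃ R : ℕ, 2 ≤ R ∧ 64 * D * C1 / κ ≤ R ∧ 1024 * C1 * KA ^ 2 / (e ^ 2 * θ) ≤ R := by
    refine ⟨max 2 (max ⌈64 * D * C1 / κ⌉₊ ⌈1024 * C1 * KA ^ 2 / (e ^ 2 * θ)⌉₊), le_max_left _ _,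
      (Nat.le_ceil _).trans ?_, (Nat.le_ceil _).trans ?_⟩
    · exact_mod_cast (le_max_left _ _).trans (le_max_right _ _)
    · exact_mod_cast (le_max_right _ _).trans (le_max_right _ _)
  obtain ⟨CR, T3, hCR, hT3, hk⟩ := third hRH η0 R hη0 hη1 (Nat.cast_nonneg _)
  obtain ⟨T4, hT4⟩ := (ev_pow η0 hη1).exists_forall_of_atTop
  obtain ⟨ρ1, hρ1⟩ : ∃ ρ1 : ℝ, ρ1 = θ / (64 * KA ^ 2 * (Real.sqrt CR + 1)) := ⟨_, rfl⟩
  have hsC : 0 ≤ Real.sqrt CR := Real.sqrt_nonneg _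
  have hρ10 : 0 < ρ1 := by rw [hρ1]; positivity
  obtain ⟨T5, hT5⟩ : ∃ T5 : ℝ, T5 = 16 * Real.pi * (L + 2) := ⟨_, rfl⟩
  obtain ⟨δm, hδm⟩ : ∃ δm : ℝ, δm = min δ (min δ' δt) := ⟨_, rfl⟩
  have hδm0 : 0 < δm := by rw [hδm]; exact lt_min hδ (lt_min hδ' hδt)
  obtain ⟨T6, hT6⟩ := ((tendsto_rpow_atTop (by positivity : (0 : ℝ) < δm / 2)).eventually_ge_atTop
    3).exists_forall_of_atTop
  refine ⟨ρ1 ^ 2 / (32 * Real.pi), κ ^ 4 / (16 * CR ^ 3), κ / (4 * CR), δm / 2, by positivity, by positivity,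
    by positivity, by positivity,
    max (max T1 (max T1' (max T1t T6))) (max T2 (max T3 (max T4 T5))),
    hT2.trans ((le_max_left _ _).trans (le_max_right _ _)), fun α m0 hm0 T hT N hN hloud => ?_⟩
  rw [← hBdef] at hloud
  obtain ⟨Q, A, hQ, hQP, hA1', hA2'⟩ := decomp (fun n => ee (θ * sq α n)) (fun n => (ee_norm _).le) m0 hL1 hB
  have hTl : max T1 (max T1' (max T1t T6)) ≤ T := (le_max_left _ _).trans hT
  have hTT1 : T1 ≤ T := (le_max_left _ _).trans hTl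
  have hTT1' : T1' ≤ T := ((le_max_left _ _).trans (le_max_right _ _)).trans hTl
  have hTT1t : T1t ≤ T := ((le_max_left _ _).trans ((le_max_right _ _).trans (le_max_right _ _))).trans hTl
  have hTT6 : T6 ≤ T := ((le_max_right _ _).trans ((le_max_right _ _).trans (le_max_right _ _))).trans hTl
  have hTT2 : T2 ≤ T := ((le_max_left _ _).trans (le_max_right _ _)).trans hT
  have hTr : max T3 (max T4 T5) ≤ T := ((le_max_right _ _).trans (le_max_right _ _)).trans hT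
  have hTT3 : T3 ≤ T := (le_max_left _ _).trans hTr
  have hTT4 : T4 ≤ T := ((le_max_left _ _).trans (le_max_right _ _)).trans hTr
  have hTT5 : T5 ≤ T := ((le_max_right _ _).trans (le_max_right _ _)).trans hTr
  obtain ⟨H, hHdef⟩ : ∃ H : ℝ, H = T / 8 := ⟨_, rfl⟩
  rw [← hHdef]
  have hH1 : T ^ η0 ≤ H := by rw [hHdef]; exact hT4 T hTT4
  have hH2 : H ≤ T / 8 := hHdef.le
  have hT100 : 100 ≤ T := hT2.trans hTT2
  have hTpos : 0 < T := by linarith
  have hunion : ENNReal.ofReal (T ^ (1 - δ)) + (ENNReal.ofReal (T ^ (1 - δ')) + ENNReal.ofReal (T ^ (1 - δt))) ≤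
      ENNReal.ofReal (T ^ (1 - δm / 2)) := by
    rw [← ENNReal.ofReal_add (by positivity) (by positivity), ← ENNReal.ofReal_add (by positivity) (by positivity)]
    apply ENNReal.ofReal_le_ofReal
    have m1 : δm ≤ δ := by rw [hδm]; exact min_le_left _ _
    have m2 : δm ≤ δ' := by rw [hδm]; exact (min_le_right _ _).trans (min_le_left _ _)
    have m3 : δm ≤ δt := by rw [hδm]; exact (min_le_right _ _).trans (min_le_right _ _)
    have g1 : T ^ (1 - δ) ≤ T ^ (1 - δm) := Real.rpow_le_rpow_of_exponent_le (by linarith) (by linarith)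
    have g2 : T ^ (1 - δ') ≤ T ^ (1 - δm) := Real.rpow_le_rpow_of_exponent_le (by linarith) (by linarith)
    have g2' : T ^ (1 - δt) ≤ T ^ (1 - δm) := Real.rpow_le_rpow_of_exponent_le (by linarith) (by linarith)
    have g3 : T ^ (1 - δm / 2) = T ^ (1 - δm) * T ^ (δm / 2) := by
      rw [← Real.rpow_add hTpos]
      congr 1
      ring
    have g4 := hT6 T hTT6
    have g5 : 0 < T ^ (1 - δm) := Real.rpow_pos_of_pos hTpos _
    rw [g3]
    nlinarith
  refine le_trans ?_ (le_trans (add_le_add (hP T hTT1 H hH1 hH2) (add_le_add (hP' T hTT1' H hH1 hH2)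
    (hPt T hTT1t H hH1 hH2))) hunion)
  refine (measure_mono ?_).trans ((measure_union_le _ _).trans (add_le_add le_rfl (measure_union_le _ _)))
  have hL1' : 1 ≤ Real.log T := by
    rw [Real.le_log_iff_exp_le hTpos]
    have := Real.exp_one_lt_d9
    linarith
  have hLpos : 0 < Real.log T := by linarith
  have hHpos : 0 < H := by rw [hHdef]; linarith
  obtain ⟨M, hM⟩ : ∃ M : ℝ, M = H * Real.log T / (2 * Real.pi) := ⟨_, rfl⟩
  have hM0 : 0 < M := by rw [hM]; positivity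
  have hMT : T * Real.log T = 16 * Real.pi * M := by
    rw [hM, hHdef]
    field_simp
    ring
  have hMbig : (L : ℝ) + 2 ≤ M := by
    have h2 : T / (16 * Real.pi) ≤ M := by
      rw [hM, hHdef, div_le_div_iff₀ (by positivity) (by positivity)]
      have : T * (2 * Real.pi) * 1 ≤ T * (2 * Real.pi) * Real.log T := by gcongr
      nlinarith
    have h3 : (L : ℝ) + 2 ≤ T / (16 * Real.pi) := by
      rw [le_div_iff₀ (by positivity)]
      rw [hT5] at hTT5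
      linarith
    exact h3.trans h2
  rintro t ⟨ht1, ht2⟩
  by_contra hnotin
  rw [Set.mem_union, Set.mem_union, not_or, not_or] at hnotin
  obtain ⟨hn1, hn2, hn3⟩ := hnotin
  have hcon : |PP (fun x => tri e (x - θ')) μ t (t + H) (Real.log T) -
      (H * Real.log T / (2 * Real.pi)) * (tri e (0 - θ') + ∫ α in (-μ)..μ,
        |α| * tri e (α - θ'))| ≤ θ * e / 8 * (H * Real.log T / (2 * Real.pi)) := by
    by_contra hc
    exact hn1 ⟨ht1, hc⟩
  have hcon' : |PP (fun x => tri e (x - 2 * e)) (3 * e) t (t + H) (Real.log T) -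
      (H * Real.log T / (2 * Real.pi)) * (tri e (0 - 2 * e) + ∫ α in (-(3 * e))..(3 * e),
        |α| * tri e (α - 2 * e))| ≤ e ^ 2 * (H * Real.log T / (2 * Real.pi)) := by
    by_contra hc
    exact hn2 ⟨ht1, hc⟩
  have hcont : ∑ n ∈ Finset.Ioc (NZ t) (NZ (t + H)), ∑ n' ∈ Finset.Ioc (NZ t) (NZ (t + H)), KK e (yy T n - yy T n') ≤
      3 * (H * Real.log T / (2 * Real.pi)) := by
    by_contra hc
    exact hn3 ⟨ht1, hc⟩
  apply ht2
  clear hn1 hn2 hn3 ht2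
  have hA1 : 1 ≤ t := by linarith [ht1.1]
  have hR0 : (0 : ℝ) < R := by
    have : 0 < R := by omega
    exact_mod_cast this
  have hmono : ∀ n ∈ Finset.Ioc (NZ t) (NZ (t + H)), ∀ m ∈ Finset.Ioc (NZ t) (NZ (t + H)),
      n ≤ m → yy T n ≤ yy T m := by
    intro n hn m _ hnm
    rw [Finset.mem_Ioc] at hn
    have h2 := SG.ord_mono (by omega : 1 ≤ n) hnm
    unfold yy
    gcongr
  rw [tri1_main he0 k1 k2, PP_conv hRH hA1, ← hM] at hcon
  have hlow := (abs_le.1 hcon).1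
  rw [tri1_main he0 q1 q2, PP_conv hRH hA1, ← hM] at hcon'
  have hup := (abs_le.1 hcon').2
  rw [← hM] at hcont
  have hth1 := h1 T hTT2 H hH1 hH2 t ht1.1 ht1.2
  have hthk := hk T hTT3 H hH1 hH2 t ht1.1 ht1.2
  rw [← hM] at hth1 hthk
  have hbN : NZ (t + H) + 2 ≤ N := by
    have g1 := SG.NZ_mono (by rw [hHdef]; linarith [ht1.2] : t + H ≤ 3 * T)
    omega
  obtain ⟨a, ha⟩ : ∃ a : ℕ, a = NZ t := ⟨_, rfl⟩
  obtain ⟨b, hb⟩ : ∃ b : ℕ, b = NZ (t + H) := ⟨_, rfl⟩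
  rw [← ha, ← hb] at hlow hup hcont hth1 hthk
  rw [← ha, ← hb] at hmono
  rw [← hb] at hbN
  rw [← ha, ← hb, ← hM]
  have hab : a < b := by
    by_contra hnot
    have h2 : Finset.Ioc a b = ∅ := Finset.Ioc_eq_empty hnot
    rw [h2] at hlow
    simp only [Finset.sum_empty] at hlow
    have h3 : θ * e / 8 * M < M * (θ' * e) := by
      rw [hθ']
      have h4 : θ / 8 < θ - 2 * e := by linarith
      have h5 : 0 < e * M := by positivity
      nlinarith
    linarith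
  -- total length
  have hΛ : yy T b - yy T (a + 1) ≤ M := by
    have h2 : ord b ≤ t + H := (SG.ord_le_iff (by omega) _).mpr (by rw [hb])
    have h3 : t < ord (a + 1) := by
      by_contra hcon2
      push Not at hcon2
      have := (SG.ord_le_iff (by omega : 1 ≤ a + 1) t).mp hcon2
      omega
    have h4 : yy T b - yy T (a + 1) = (ord b - ord (a + 1)) * (Real.log T / (2 * Real.pi)) := by
      simp only [yy]; ring
    rw [h4, hM, mul_div_assoc]
    apply mul_le_mul_of_nonneg_right _ (by positivity)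
    linarith
  -- the modulated sum
  have htw := modulated2 a b hab (yy T) (fun n => θ * sq α n) hmono Q A B m0 hQ hQP he0 (2 * e)
  rw [abs_of_pos (by positivity : 0 < 2 * e)] at htw
  obtain ⟨TW, hTW⟩ : ∃ TW : ℝ, TW = ∑ n ∈ Finset.Ioc a b, ∑ n' ∈ Finset.Ioc a b, KK e (yy T n - yy T n') *
      Real.cos (2 * Real.pi * ((θ * sq α n - θ * sq α n') - 2 * e * (yy T n - yy T n'))) := ⟨_, rfl⟩
  rw [← hTW] at htw
  have hlowfreq : ∑ n ∈ Finset.Ioc a b, ∑ n' ∈ Finset.Ioc a b, KK e (yy T n - yy T n') *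
      Real.cos (2 * Real.pi * (2 * e) * (yy T n - yy T n')) ≤ 3 * e ^ 2 * M := by
    have h2 : ∑ n ∈ Finset.Ioc a b, ∑ n' ∈ Finset.Ioc a b, KK e (yy T n - yy T n') *
        Real.cos (2 * Real.pi * (2 * e) * (yy T n - yy T n')) =
        ∑ n ∈ Finset.Ioc a b, ∑ n' ∈ Finset.Ioc a b,
          RR (fun x => tri e (x - 2 * e)) (3 * e) (ord n * Real.log T / (2 * Real.pi) -
            ord n' * Real.log T / (2 * Real.pi)) := by
      refine Finset.sum_congr rfl fun n _ => Finset.sum_congr rfl fun n' _ => ?_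
      rw [RR_tri1 he0 q1 q2, mul_comm]
      rfl
    rw [h2]
    have h3 : M * (2 * e * e) + e ^ 2 * M = 3 * e ^ 2 * M := by ring
    linarith
  -- the remainder
  obtain ⟨E, hE⟩ : ∃ E : Finset ℕ, E = (Finset.Ioc a b).filter
      (fun n => ¬ (Quiet (fun n => ee (θ * sq α n)) m0 L B n ∧ Quiet (fun n => ee (θ * sq α n)) m0 L B (n + 1))) := ⟨_, rfl⟩
  have hEI : E ⊆ Finset.Ioc a b := by rw [hE]; exact Finset.filter_subset _ _
  have hEc : (E.card : ℝ) ≤ ρ1 ^ 2 * M := by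
    have g1 := loud_window (fun n => ee (θ * sq α n)) m0 L B a b
    rw [← hE] at g1
    have g2 : loud (fun n => ee (θ * sq α n)) m0 L B (b + 2) ≤ loud (fun n => ee (θ * sq α n)) m0 L B N :=
      loud_mono _ _ _ _ hbN
    have g5 : (E.card : ℝ) ≤ 2 * (loud (fun n => ee (θ * sq α n)) m0 L B N : ℝ) := by
      exact_mod_cast g1.trans (Nat.mul_le_mul_left 2 g2)
    rw [hMT] at hloud
    have g7 : ρ1 ^ 2 / (32 * Real.pi) * (16 * Real.pi * M) = ρ1 ^ 2 * M / 2 := by field_simp; ring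
    rw [g7] at hloud
    linarith
  have hWE := W_exc (Finset.Ioc a b) E hEI (yy T) R hR2 he0 hM0.le hCR.le hρ10.le hth1 hthk hEc
  have hWn : ∀ n, 0 ≤ ∑ n' ∈ Finset.Ioc a b, KK e (yy T n - yy T n') := fun n =>
    Finset.sum_nonneg fun n' _ => KK_nonneg he0 _
  have hAW := exc_mass (Finset.Ioc a b) E hEI (fun n => ∑ n' ∈ Finset.Ioc a b, KK e (yy T n - yy T n')) hWn A
    (b1 := B / L) (K := KA) (fun n => by rw [hKA]; linarith [hA1' n]) (fun n hn h => by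
      rw [hE, Finset.mem_filter, not_and, not_not] at h
      obtain ⟨g0, g0'⟩ := h hn
      exact hA2' n g0 g0') hcont hWE
  have hLM : (L : ℝ) ≤ M := by linarith
  have htw2 : TW ≤ e * (θ / 4 * M) := by
    refine le_trans ?_ (budget m0 hm0 hθ he0 he he1 hB2 hBe hKA0 hR0 hRc hρ1 hM0 hLM)
    refine htw.trans ?_
    gcongr
  refine core2 a b R hR2 θ κ D C1 CR M hκ0 hD0 hCR hM0 ?_ (yy T) (v2 α T) hmono
    (fun x => KK e x / e) (fun x => div_nonneg (KK_nonneg he0 x) he0.le)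
    (fun x => div_le_one_of_le₀ (KK_le he0 x) he0.le) ?_
    hth1 hthk ?_
  · rw [div_le_iff₀ hκ0] at hRb
    rw [div_le_iff₀ hR0]
    linarith
  · intro x
    have h2 := KK_sq he0 x
    have h3 : KK e x / e * x ^ 2 = (KK e x * x ^ 2) / e := by ring
    rw [h3, hD, div_le_iff₀ he0]
    calc KK e x * x ^ 2 ≤ 1 / e := h2
      _ = 1 / e ^ 2 * e := by field_simp
  · obtain ⟨SS, hSS⟩ : ∃ SS : ℝ, SS = ∑ n ∈ Finset.Ioc a b, ∑ n' ∈ Finset.Ioc a b,
        KK e (yy T n - yy T n') / e * |Real.sin (Real.pi * θ * (v2 α T n - v2 α T n'))| := ⟨_, rfl⟩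
    rw [← hSS]
    have h3 := compare (Finset.Ioc a b) α (T := T) he0 k1 k2 hθ'
    rw [← hTW, ← hSS] at h3
    exact bias hθ' he0 he1 hκ hM0 hθ h3 hlow htw2

end Run7.h613.QP
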