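import Pool.Agent.Run7.h613.QP.B

/-!
# Exclusion of quiet patterns: the bad gaps at the local scale
-/

set_option autoImplicit false

open Complex Filter Topology Set MeasureTheory

namespace Run7.h613.QP

open H370 hiding PP
open H370.A3 SP H370.A2
open SG (ord NZ zmult ZS)
open H177.Lat

/-- the bound for the block sums -/
noncomputable def Bd (θ : ℝ) (L : ℕ) : ℝ := Real.sqrt θ / 400 * Real.sqrt L

lemma Bd_nonneg (θ : ℝ) (L : ℕ) : 0 ≤ Bd θ L := by unfold Bd; positivity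

lemma Bd_sq {θ : ℝ} (hθ : 0 ≤ θ) (L : ℕ) : Bd θ L ^ 2 = θ * L / 160000 := by
  unfold Bd
  rw [mul_pow, div_pow, Real.sq_sqrt hθ, Real.sq_sqrt (Nat.cast_nonneg L)]
  ring

open Classical in
/-- the number of places below `N` where the sequence is not quiet -/
noncomputable def loud (P : ℕ → ℂ) (m0 : ℂ) (L : ℕ) (B : ℝ) (N : ℕ) : ℕ :=
  ((Finset.range N).filter (fun n => ¬ Quiet P m0 L B n)).card

lemma loud_mono (P : ℕ → ℂ) (m0 : ℂ) (L : ℕ) (B : ℝ) {N N' : ℕ} (h : N ≤ N') : loud P m0 L B N ≤ loud P m0 L B N' := by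
  classical
  exact Finset.card_le_card (Finset.filter_subset_filter _ (Finset.range_subset_range.2 h))

open Classical in
lemma loud_window (P : ℕ → ℂ) (m0 : ℂ) (L : ℕ) (B : ℝ) (a b : ℕ) :
    ((Finset.Ioc a b).filter (fun n => ¬ (Quiet P m0 L B n ∧ Quiet P m0 L B (n + 1)))).card ≤ 2 * loud P m0 L B (b + 2) := by
  set S := (Finset.range (b + 2)).filter (fun n => ¬ Quiet P m0 L B n) with hS
  have hsub : (Finset.Ioc a b).filter (fun n => ¬ (Quiet P m0 L B n ∧ Quiet P m0 L B (n + 1))) ⊆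
      S ∪ S.image (fun n => n - 1) := by
    intro n hn
    rw [Finset.mem_filter, Finset.mem_Ioc, not_and_or] at hn
    rw [Finset.mem_union, Finset.mem_image]
    rcases hn with ⟨⟨h1, h2⟩, h | h⟩
    · left
      rw [hS, Finset.mem_filter, Finset.mem_range]
      exact ⟨by omega, h⟩
    · right
      refine ⟨n + 1, ?_, by omega⟩
      rw [hS, Finset.mem_filter, Finset.mem_range]
      exact ⟨by omega, h⟩
  have h1 := (Finset.card_le_card hsub).trans (Finset.card_union_le _ _)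
  have h2 : (S.image (fun n => n - 1)).card ≤ S.card := Finset.card_image_le
  have h3 : loud P m0 L B (b + 2) = S.card := rfl
  omega

/-- the sizes of the terms -/
lemma budget {θ e B KA C1 CR ρ1 M : ℝ} {L R : ℕ} (m0 : ℂ) (hm0 : ‖m0‖ ≤ 2) (hθ : 0 < θ) (he0 : 0 < e)
    (he : e = 1 / (L : ℝ)) (he1 : e ≤ θ / 1536) (hB2 : B ^ 2 = θ * L / 160000) (hBe : B ^ 2 * e = θ / 160000)
    (hKA0 : 0 < KA) (hR0 : (0 : ℝ) < R) (hRc : 1024 * C1 * KA ^ 2 / (e ^ 2 * θ) ≤ R)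
    (hρ1 : ρ1 = θ / (64 * KA ^ 2 * (Real.sqrt CR + 1))) (hM0 : 0 < M) (hLM : (L : ℝ) ≤ M) :
    2 * (2 * ‖m0‖ ^ 2 * (3 * e ^ 2 * M) +
        (12 * B ^ 2 * e + 24 * Real.pi ^ 2 * (e + 2 * e) ^ 2 * (B ^ 2 * M))) +
        2 * ((B / L) ^ 2 * (3 * M) + KA ^ 2 * ((e * (ρ1 * Real.sqrt CR) + 16 * C1 / (e * R)) * M)) ≤
      e * (θ / 4 * M) := by
  have hpi := Real.pi_pos
  have hpi2 : Real.pi ^ 2 ≤ 10 := by nlinarith [Real.pi_lt_d2, Real.pi_pos]
  have hsC : 0 ≤ Real.sqrt CR := Real.sqrt_nonneg _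
  have heM : 0 ≤ e * M := by positivity
  have p1 : 2 * (2 * ‖m0‖ ^ 2 * (3 * e ^ 2 * M)) ≤ e * (θ / 32 * M) := by
    have g1 : ‖m0‖ ^ 2 ≤ 4 := by nlinarith [norm_nonneg m0]
    calc 2 * (2 * ‖m0‖ ^ 2 * (3 * e ^ 2 * M)) = ‖m0‖ ^ 2 * (12 * e * (e * M)) := by ring
      _ ≤ 4 * (12 * e * (e * M)) := mul_le_mul_of_nonneg_right g1 (by positivity)
      _ = 48 * e * (e * M) := by ring
      _ ≤ θ / 32 * (e * M) := by
        apply mul_le_mul_of_nonneg_right _ heM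
        linarith
      _ = _ := by ring
  have p2 : 2 * (12 * B ^ 2 * e) ≤ e * (θ / 32 * M) := by
    have g1 : B ^ 2 ≤ θ * M / 160000 := by
      rw [hB2]
      have := mul_le_mul_of_nonneg_left hLM hθ.le
      linarith
    have g2 : 0 ≤ θ * M := by positivity
    calc 2 * (12 * B ^ 2 * e) = e * (24 * B ^ 2) := by ring
      _ ≤ e * (θ / 32 * M) := by
        apply mul_le_mul_of_nonneg_left _ he0.le
        linarith
  have p3 : 2 * (24 * Real.pi ^ 2 * (e + 2 * e) ^ 2 * (B ^ 2 * M)) ≤ e * (θ / 32 * M) := by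
    calc 2 * (24 * Real.pi ^ 2 * (e + 2 * e) ^ 2 * (B ^ 2 * M)) = 432 * Real.pi ^ 2 * (B ^ 2 * e) * (e * M) := by ring
      _ = 432 * Real.pi ^ 2 * (θ / 160000) * (e * M) := by rw [hBe]
      _ ≤ 432 * 10 * (θ / 160000) * (e * M) := by gcongr
      _ ≤ θ / 32 * (e * M) := by
        apply mul_le_mul_of_nonneg_right _ heM
        linarith
      _ = _ := by ring
  have p4 : 2 * ((B / L) ^ 2 * (3 * M)) ≤ e * (θ / 32 * M) := by
    have g1 : B / L = B * e := by rw [he]; ring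
    calc 2 * ((B / L) ^ 2 * (3 * M)) = 6 * (B ^ 2 * e) * (e * M) := by rw [g1]; ring
      _ = 6 * (θ / 160000) * (e * M) := by rw [hBe]
      _ ≤ θ / 32 * (e * M) := by
        apply mul_le_mul_of_nonneg_right _ heM
        linarith
      _ = _ := by ring
  have p5 : 2 * (KA ^ 2 * ((e * (ρ1 * Real.sqrt CR)) * M)) ≤ e * (θ / 32 * M) := by
    have g1 : 2 * KA ^ 2 * (ρ1 * Real.sqrt CR) ≤ θ / 32 := by
      have g2 : ρ1 * Real.sqrt CR ≤ θ / (64 * KA ^ 2) := by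
        rw [hρ1, div_mul_eq_mul_div, div_le_div_iff₀ (by positivity) (by positivity)]
        have : 0 ≤ θ * (64 * KA ^ 2) := by positivity
        calc θ * Real.sqrt CR * (64 * KA ^ 2) = θ * (64 * KA ^ 2) * Real.sqrt CR := by ring
          _ ≤ θ * (64 * KA ^ 2) * (Real.sqrt CR + 1) := mul_le_mul_of_nonneg_left (by linarith) this
          _ = _ := by ring
      calc 2 * KA ^ 2 * (ρ1 * Real.sqrt CR) ≤ 2 * KA ^ 2 * (θ / (64 * KA ^ 2)) :=
            mul_le_mul_of_nonneg_left g2 (by positivity)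
        _ = θ / 32 := by field_simp; ring
    calc 2 * (KA ^ 2 * ((e * (ρ1 * Real.sqrt CR)) * M)) = 2 * KA ^ 2 * (ρ1 * Real.sqrt CR) * (e * M) := by ring
      _ ≤ θ / 32 * (e * M) := mul_le_mul_of_nonneg_right g1 heM
      _ = _ := by ring
  have p6 : 2 * (KA ^ 2 * (16 * C1 / (e * R) * M)) ≤ e * (θ / 32 * M) := by
    have g1 : 32 * KA ^ 2 * C1 / (e * R) ≤ e * (θ / 32) := by
      rw [div_le_iff₀ (by positivity)] at hRc ⊢
      calc 32 * KA ^ 2 * C1 = 1 / 32 * (1024 * C1 * KA ^ 2) := by ring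
        _ ≤ 1 / 32 * (R * (e ^ 2 * θ)) := mul_le_mul_of_nonneg_left hRc (by norm_num)
        _ = _ := by ring
    calc 2 * (KA ^ 2 * (16 * C1 / (e * R) * M)) = 32 * KA ^ 2 * C1 / (e * R) * M := by ring
      _ ≤ e * (θ / 32) * M := mul_le_mul_of_nonneg_right g1 hM0.le
      _ = _ := by ring
  have h9 : e * (θ / 4 * M) = 8 * (e * (θ / 32 * M)) := by ring
  have h10 : 0 ≤ e * (θ / 32 * M) := by positivity
  have h11 : 2 * (2 * ‖m0‖ ^ 2 * (3 * e ^ 2 * M) +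
      (12 * B ^ 2 * e + 24 * Real.pi ^ 2 * (e + 2 * e) ^ 2 * (B ^ 2 * M))) +
      2 * ((B / L) ^ 2 * (3 * M) + KA ^ 2 * ((e * (ρ1 * Real.sqrt CR) + 16 * C1 / (e * R)) * M)) =
      2 * (2 * ‖m0‖ ^ 2 * (3 * e ^ 2 * M)) + 2 * (12 * B ^ 2 * e) +
      2 * (24 * Real.pi ^ 2 * (e + 2 * e) ^ 2 * (B ^ 2 * M)) + 2 * ((B / L) ^ 2 * (3 * M)) +
      2 * (KA ^ 2 * ((e * (ρ1 * Real.sqrt CR)) * M)) + 2 * (KA ^ 2 * (16 * C1 / (e * R) * M)) := by ring
  rw [h11]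
  linarith

/-- the mass of the remainder -/
lemma exc_mass (I E : Finset ℕ) (hE : E ⊆ I) (W : ℕ → ℝ) (hW : ∀ n, 0 ≤ W n) (A : ℕ → ℂ) {b1 K X Y : ℝ}
    (hA1 : ∀ n, ‖A n‖ ≤ K) (hA2 : ∀ n ∈ I, n ∉ E → ‖A n‖ ≤ b1) (hX : ∑ n ∈ I, W n ≤ X)
    (hY : ∑ n ∈ E, W n ≤ Y) :
    ∑ n ∈ I, ‖A n‖ ^ 2 * W n ≤ b1 ^ 2 * X + K ^ 2 * Y := by
  classical
  have hpt : ∀ n ∈ I, ‖A n‖ ^ 2 * W n ≤ b1 ^ 2 * W n + (if n ∈ E then K ^ 2 * W n else 0) := by
    intro n hn
    split_ifs with h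
    · have g1 : ‖A n‖ ^ 2 ≤ K ^ 2 := pow_le_pow_left₀ (norm_nonneg _) (hA1 n) 2
      have g2 := mul_le_mul_of_nonneg_right g1 (hW n)
      have g3 : 0 ≤ b1 ^ 2 * W n := mul_nonneg (sq_nonneg _) (hW n)
      linarith
    · have g1 : ‖A n‖ ^ 2 ≤ b1 ^ 2 := pow_le_pow_left₀ (norm_nonneg _) (hA2 n hn h) 2
      have g2 := mul_le_mul_of_nonneg_right g1 (hW n)
      linarith
  refine (Finset.sum_le_sum hpt).trans ?_
  rw [Finset.sum_add_distrib, ← Finset.mul_sum, ← Finset.sum_filter, Finset.filter_mem_eq_inter,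
    Finset.inter_eq_right.2 hE, ← Finset.mul_sum]
  exact add_le_add (mul_le_mul_of_nonneg_left hX (sq_nonneg _)) (mul_le_mul_of_nonneg_left hY (sq_nonneg _))

/-- comparison of the two exponential sums -/
lemma compare (I : Finset ℕ) (α : ℕ → ℝ) {θ θ' e μ T : ℝ} (he0 : 0 < e) (k1 : e ≤ θ') (k2 : θ' + e ≤ μ)
    (hθ' : θ' = θ - 2 * e) :
    ∑ n ∈ I, ∑ n' ∈ I, RR (fun x => tri e (x - θ')) μ (ord n * Real.log T / (2 * Real.pi) -
      ord n' * Real.log T / (2 * Real.pi)) ≤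
    ∑ n ∈ I, ∑ n' ∈ I, KK e (yy T n - yy T n') *
      Real.cos (2 * Real.pi * ((θ * sq α n - θ * sq α n') - 2 * e * (yy T n - yy T n'))) +
    2 * e * ∑ n ∈ I, ∑ n' ∈ I,
        KK e (yy T n - yy T n') / e * |Real.sin (Real.pi * θ * (v2 α T n - v2 α T n'))| := by
  rw [Finset.mul_sum, ← Finset.sum_add_distrib]
  refine Finset.sum_le_sum fun n _ => ?_
  rw [Finset.mul_sum, ← Finset.sum_add_distrib]
  refine Finset.sum_le_sum fun n' _ => ?_
  rw [RR_tri1 he0 k1 k2]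
  have h4 := cos_cmp (2 * Real.pi * θ' * (yy T n - yy T n'))
    (2 * Real.pi * ((θ * sq α n - θ * sq α n') - 2 * e * (yy T n - yy T n')))
  have h5 : (2 * Real.pi * θ' * (yy T n - yy T n') -
      2 * Real.pi * ((θ * sq α n - θ * sq α n') - 2 * e * (yy T n - yy T n'))) / 2 =
      Real.pi * θ * (v2 α T n - v2 α T n') := by
    rw [hθ']
    unfold v2
    ring
  rw [h5] at h4
  have h6 := mul_le_mul_of_nonneg_right h4 (KK_nonneg he0 (yy T n - yy T n'))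
  have h7 : 2 * e * (KK e (yy T n - yy T n') / e *
      |Real.sin (Real.pi * θ * (v2 α T n - v2 α T n'))|) =
      2 * |Real.sin (Real.pi * θ * (v2 α T n - v2 α T n'))| * KK e (yy T n - yy T n') := by
    field_simp
  rw [h7]
  have h8 : yy T n - yy T n' = ord n * Real.log T / (2 * Real.pi) -
      ord n' * Real.log T / (2 * Real.pi) := rfl
  rw [← h8]
  linarith

/-- the bias against the kernel -/
lemma bias {θ θ' e κ M S TW SS : ℝ} (hθ' : θ' = θ - 2 * e) (he0 : 0 < e) (he1 : e ≤ θ / 1536) (hκ : κ = θ / 4)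
    (hM0 : 0 < M) (hθ : 0 < θ) (h3 : S ≤ TW + 2 * e * SS) (hlow : -(θ * e / 8 * M) ≤ S - M * (θ' * e))
    (htw2 : TW ≤ e * (θ / 4 * M)) : κ * M ≤ SS := by
  have h9 : e * (θ / 2 * M) ≤ 2 * e * SS := by
    have g1 : M * (θ' * e) - θ * e / 8 * M ≤ TW + 2 * e * SS := by linarith
    have g2 : e * (7 * θ / 8 * M) ≤ M * (θ' * e) := by
      have : 7 * θ / 8 ≤ θ' := by rw [hθ']; linarith
      have g3 : 0 ≤ e * M := by positivity
      nlinarith
    have g4 : e * (7 * θ / 8 * M) - θ * e / 8 * M - e * (θ / 4 * M) = e * (θ / 2 * M) := by ring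
    linarith
  have h10 : e * (θ / 2 * M) = 2 * e * (κ * M) := by rw [hκ]; ring
  rw [h10] at h9
  exact le_of_mul_le_mul_left h9 (by positivity)

end Run7.h613.QP
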