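import Pool.Agent.Run7.h613.QP.C
import Pool.Agent.H177R3.LatE

/-!
# Exclusion of quiet patterns: the first `N` gaps

The steps from the bad gaps to the spacings are those of `Pool.Agent.H177R3.PerC`, with constants
which do not depend on the pattern.
-/

set_option autoImplicit false

open Complex Filter Topology Set MeasureTheory

namespace Run7.h613.QP

open H370 hiding PP
open H370.A3 SP H370.A2
open SG (ord NZ zmult ZS)
open H177.Lat

theorem delta_of_bad (θ c ε δ : ℝ) (hθ : 0 < θ) (hc : 0 < c) (hε : 0 < ε) :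
    ∃ c' : ℝ, 0 < c' ∧ ∃ T1 : ℝ, 100 ≤ T1 ∧ ∀ α : ℕ → ℝ, ∀ T : ℝ, T1 ≤ T →
      volume {t : ℝ | t ∈ Set.Icc T (2 * T) ∧
        ¬ (c * (T / 8 * Real.log T / (2 * Real.pi)) ≤
          ((Bad (NZ t) (NZ (t + T / 8)) θ ε (v2 α T)).card : ℝ))} ≤
        ENNReal.ofReal (T ^ (1 - δ)) →
      volume {t : ℝ | T ≤ t ∧ t ≤ 2 * T ∧
        ({n : ℕ | 1 ≤ n ∧ t < ord n ∧ ord n ≤ t + T / 8 ∧
          ∀ k : ℤ, c' ≤ |del n - α n - k / θ|}.ncard : ℝ) <
          c' * (T / 8 * Real.log T)} ≤ ENNReal.ofReal (T ^ (1 - δ)) := by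
  have hpi := Real.pi_pos
  have hpi3 := Real.pi_gt_three
  set U : ℝ := 2 / c with hU
  have hU0 : 0 < U := by positivity
  set ε' : ℝ := ε / (2 * Real.pi * θ) with hε'
  have hε'0 : 0 < ε' := by positivity
  obtain ⟨T1, hT1⟩ := (Real.tendsto_log_atTop.eventually_ge_atTop
    (3 * U / ε')).exists_forall_of_atTop
  set c' : ℝ := min ε' (c / (4 * Real.pi)) with hc'
  have hc'0 : 0 < c' := lt_min hε'0 (by positivity)
  refine ⟨c', hc'0, max 100 T1, le_max_left _ _, fun α T hT h => (measure_mono ?_).trans h⟩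
  set H : ℝ := T / 8 with hHdef
  have hH2 : H ≤ T / 8 := le_rfl
  have hT100 : 100 ≤ T := (le_max_left _ _).trans hT
  have hL1 := hT1 T ((le_max_right _ _).trans hT)
  have hTpos : 0 < T := by linarith
  have hLpos : 0 < Real.log T := Real.log_pos (by linarith)
  have hHpos : 0 < H := by rw [hHdef]; linarith
  rintro t ⟨ht1, ht2, ht3⟩
  refine ⟨⟨ht1, ht2⟩, fun hcon => ?_⟩
  set M : ℝ := H * Real.log T / (2 * Real.pi) with hM
  have hM0 : 0 < M := by positivity
  set a := NZ t with ha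
  set b := NZ (t + H) with hb
  set y := yy T with hy
  set Bd := Bad a b θ ε (v2 α T) with hBd
  have hBdmem : ∀ j ∈ Bd, a < j ∧ j + 1 ≤ b ∧
      ε < |Real.sin (Real.pi * θ * (y (j + 1) - y j - α j))| := by
    intro j hj
    rw [hBd, Bad, Finset.mem_filter, Finset.mem_Ioc] at hj
    have e1 : v2 α T (j + 1) - v2 α T j = y (j + 1) - y j - α j := by
      simp only [v2, hy, H177.Lat.sq]
      rw [Finset.sum_range_succ]
      ring
    rw [e1] at hj
    exact ⟨hj.1.1, hj.2.1, hj.2.2⟩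
  have hne : 0 < Bd.card := by
    have h1 : (0 : ℝ) < (Bd.card : ℝ) := lt_of_lt_of_le (by positivity) hcon
    exact_mod_cast h1
  obtain ⟨j0, hj0⟩ := Finset.card_pos.1 hne
  have hab : a + 1 ≤ b := by
    have := hBdmem j0 hj0
    omega
  have hgap0 : ∀ j, 1 ≤ j → 0 ≤ y (j + 1) - y j := by
    intro j hj
    have h2 := SG.ord_mono hj (Nat.le_succ j)
    have h3 : y (j + 1) - y j = (ord (j + 1) - ord j) * (Real.log T / (2 * Real.pi)) := by
      simp only [hy, yy]; ring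
    rw [h3]
    exact mul_nonneg (by linarith) (by positivity)
  -- total length
  have htot : ∑ j ∈ Bd, (y (j + 1) - y j) ≤ M := by
    have h1 : ∑ j ∈ Bd, (y (j + 1) - y j) ≤ ∑ j ∈ Finset.Ico (a + 1) b, (y (j + 1) - y j) := by
      apply Finset.sum_le_sum_of_subset_of_nonneg
      · intro j hj
        have := hBdmem j hj
        rw [Finset.mem_Ico]
        omega
      · intro j hj _
        rw [Finset.mem_Ico] at hj
        exact hgap0 j (by omega)
    rw [sum_gaps a b y hab] at h1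
    refine h1.trans ?_
    have h2 : ord b ≤ t + H := (SG.ord_le_iff (by omega) _).mpr le_rfl
    have h3 : t < ord (a + 1) := by
      by_contra hcon2
      push Not at hcon2
      have := (SG.ord_le_iff (by omega : 1 ≤ a + 1) t).mp hcon2
      omega
    have h4 : y b - y (a + 1) = (ord b - ord (a + 1)) * (Real.log T / (2 * Real.pi)) := by
      simp only [hy, yy]; ring
    rw [h4, hM, mul_div_assoc]
    apply mul_le_mul_of_nonneg_right _ (by positivity)
    linarith
  set Bs := Bd.filter (fun j => y (j + 1) - y j ≤ U) with hBs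
  have hbig : ((Bd.filter (fun j => ¬ (y (j + 1) - y j ≤ U))).card : ℝ) * U ≤ M := by
    refine le_trans ?_ htot
    have h1 : ∑ j ∈ Bd.filter (fun j => ¬ (y (j + 1) - y j ≤ U)), U ≤
        ∑ j ∈ Bd.filter (fun j => ¬ (y (j + 1) - y j ≤ U)), (y (j + 1) - y j) := by
      refine Finset.sum_le_sum fun j hj => ?_
      have := (Finset.mem_filter.1 hj).2
      push Not at this
      exact this.le
    rw [Finset.sum_const, nsmul_eq_mul] at h1
    refine h1.trans ?_
    apply Finset.sum_le_sum_of_subset_of_nonneg (Finset.filter_subset _ _)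
    intro j hj _
    exact hgap0 j (by have := hBdmem j hj; omega)
  have hBscard : c / 2 * M ≤ (Bs.card : ℝ) := by
    have h1 : (Bd.card : ℝ) = Bs.card + (Bd.filter (fun j => ¬ (y (j + 1) - y j ≤ U))).card := by
      rw [hBs]
      exact_mod_cast (Finset.card_filter_add_card_filter_not
        (s := Bd) (fun j => y (j + 1) - y j ≤ U)).symm
    have h2 : ((Bd.filter (fun j => ¬ (y (j + 1) - y j ≤ U))).card : ℝ) ≤ M / U := by
      rw [le_div_iff₀ hU0]; exact hbig
    have h3 : M / U = c / 2 * M := by rw [hU]; field_simp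
    rw [h3] at h2
    linarith
  -- transfer
  set S : Set ℕ := {n : ℕ | 1 ≤ n ∧ t < ord n ∧ ord n ≤ t + H ∧ ∀ k : ℤ, c' ≤ |del n - α n - k / θ|}
    with hS
  have hSfin : S.Finite := by
    refine (Set.finite_Iic (NZ (t + H))).subset ?_
    rintro n ⟨h1, h2, h3, h4⟩
    exact (SG.ord_le_iff h1 _).mp h3
  have hsub : (Bs : Set ℕ) ⊆ S := by
    intro j hj
    rw [Finset.mem_coe, hBs, Finset.mem_filter] at hj
    obtain ⟨hj1, hj2⟩ := hj
    obtain ⟨g1, g2, g3⟩ := hBdmem j hj1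
    have hj0' : 1 ≤ j := by omega
    have q1 : t < ord j := by
      by_contra hcon2
      push Not at hcon2
      have := (SG.ord_le_iff hj0' t).mp hcon2
      omega
    have q2 : ord (j + 1) ≤ t + H := (SG.ord_le_iff (by omega) _).mpr g2
    have q3 := SG.ord_mono hj0' (Nat.le_succ j)
    have hx0 : 0 < ord j := by linarith
    have q3' : ord j ≤ ord (j + 1) := q3
    refine ⟨hj0', q1, q3'.trans q2, fun k => ?_⟩
    set u := y (j + 1) - y j with hu
    have hu0 : 0 ≤ u := hgap0 j hj0'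
    have hu1 : u = (ord (j + 1) - ord j) * Real.log T / (2 * Real.pi) := by
      simp only [hu, hy, yy]; ring
    -- comparison of the two normalisations
    have hlogx : Real.log T ≤ Real.log (ord j) := Real.log_le_log hTpos (by linarith)
    have hlogy : Real.log (ord (j + 1)) + 1 ≤ Real.log T + 3 := by
      have h6 : Real.log (ord (j + 1)) ≤ Real.log (3 * T) :=
        Real.log_le_log (hx0.trans_le q3') (by linarith)
      rw [Real.log_mul (by norm_num) hTpos.ne'] at h6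
      have h7 : Real.log 3 ≤ 2 := by
        have := Real.log_le_sub_one_of_pos (show (0 : ℝ) < 3 by norm_num)
        linarith
      linarith
    have hd0 : 0 ≤ ord (j + 1) - ord j := by linarith
    have hlow : u ≤ del j := by
      rw [hu1]
      unfold del
      apply div_le_div_of_nonneg_right _ (by positivity)
      refine le_trans ?_ (xlog_low hx0 q3')
      exact mul_le_mul_of_nonneg_left (by linarith) hd0
    have hup : del j ≤ u + 3 * U / Real.log T := by
      have h5 : del j ≤ (ord (j + 1) - ord j) * (Real.log T + 3) / (2 * Real.pi) := by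
        unfold del
        apply div_le_div_of_nonneg_right _ (by positivity)
        exact (xlog_aux hx0 q3').trans (mul_le_mul_of_nonneg_left hlogy hd0)
      have h6 : (ord (j + 1) - ord j) * (Real.log T + 3) / (2 * Real.pi) =
          u + 3 * u / Real.log T := by
        rw [hu1]
        field_simp
      rw [h6] at h5
      refine h5.trans ?_
      have h7 : 3 * u / Real.log T ≤ 3 * U / Real.log T :=
        div_le_div_of_nonneg_right (by linarith) hLpos.le
      linarith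
    have hsmall : 3 * U / Real.log T ≤ ε' := by
      rw [div_le_iff₀ hε'0] at hL1
      rw [div_le_iff₀ hLpos]
      linarith
    -- distance to the lattice
    have hdist : 2 * ε' ≤ |u - α j - k / θ| := by
      have h5 : |Real.sin (Real.pi * θ * (u - α j))| ≤
          |Real.pi * θ * (u - α j) - k * Real.pi| := by
        have h6 := Real.abs_sin_le_abs (x := Real.pi * θ * (u - α j) - k * Real.pi)
        rw [Real.sin_sub_int_mul_pi] at h6
        rw [abs_mul] at h6
        have h7 : |((-1 : ℝ) ^ k)| = 1 := by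
          rw [abs_zpow, abs_neg, abs_one, one_zpow]
        rw [h7, one_mul] at h6
        exact h6
      have h8 : Real.pi * θ * (u - α j) - k * Real.pi = Real.pi * θ * (u - α j - k / θ) := by
        field_simp
      rw [h8, abs_mul, abs_of_pos (by positivity : 0 < Real.pi * θ)] at h5
      have h9 := g3.le.trans h5
      have h10 : 2 * ε' = ε / (Real.pi * θ) := by
        rw [hε']
        field_simp
      rw [h10, div_le_iff₀ (by positivity)]
      linarith
    have hfin : ε' ≤ |del j - α j - k / θ| := by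
      have h5 : |u - α j - k / θ| ≤ |del j - α j - k / θ| + |del j - u| := by
        have h6 := abs_sub_le (u - α j - k / θ) (del j - α j - k / θ) 0
        have h7 : u - α j - k / θ - (del j - α j - k / θ) = -(del j - u) := by ring
        rw [sub_zero, sub_zero, h7, abs_neg] at h6
        linarith
      have h7 : |del j - u| ≤ ε' := by
        rw [abs_of_nonneg (by linarith)]
        linarith
      linarith
    exact (min_le_left _ _).trans hfin
  have hle := Set.ncard_le_ncard hsub hSfin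
  rw [Set.ncard_coe_finset] at hle
  have hle' : (Bs.card : ℝ) ≤ (S.ncard : ℝ) := by exact_mod_cast hle
  have hfinal : c' * (H * Real.log T) ≤ c / 2 * M := by
    have h5 : c / 2 * M = c / (4 * Real.pi) * (H * Real.log T) := by
      rw [hM]; field_simp; ring
    rw [h5]
    exact mul_le_mul_of_nonneg_right (min_le_right _ _) (by positivity)
  linarith

theorem count_of_bad (θ c ε δ : ℝ) (hθ : 0 < θ) (hc : 0 < c) (hε : 0 < ε) (hδ : 0 < δ) :
    ∃ c' : ℝ, 0 < c' ∧ ∃ T1 : ℝ, 100 ≤ T1 ∧ ∀ α : ℕ → ℝ, ∀ T : ℝ, T1 ≤ T →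
      volume {t : ℝ | t ∈ Set.Icc T (2 * T) ∧
        ¬ (c * (T / 8 * Real.log T / (2 * Real.pi)) ≤
          ((Bad (NZ t) (NZ (t + T / 8)) θ ε (v2 α T)).card : ℝ))} ≤
        ENNReal.ofReal (T ^ (1 - δ)) →
      c' / 8 * (T * Real.log T) ≤
        ({n : ℕ | 1 ≤ n ∧ ord n ≤ 3 * T ∧ ∀ k : ℤ, c' ≤ |del n - α n - k / θ|}.ncard : ℝ) := by
  obtain ⟨c, hc, T0, hT0, h⟩ := delta_of_bad θ c ε δ hθ hc hε
  refine ⟨c, hc, T0, hT0, fun α T hTT0 h0 => ?_⟩
  have hT100 : 100 ≤ T := hT0.trans hTT0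
  have hTpos : 0 < T := by linarith
  have h1 := h α T hTT0 h0
  -- a good point exists
  obtain ⟨t, ht1, ht2, ht3⟩ : ∃ t : ℝ, T ≤ t ∧ t ≤ 2 * T ∧ ¬
      (({n : ℕ | 1 ≤ n ∧ t < ord n ∧ ord n ≤ t + T / 8 ∧
        ∀ k : ℤ, c ≤ |del n - α n - k / θ|}.ncard : ℝ)
        < c * (T / 8 * Real.log T)) := by
    by_contra hcon
    push Not at hcon
    have h2 : Set.Icc T (2 * T) ⊆ {t : ℝ | T ≤ t ∧ t ≤ 2 * T ∧
      ({n : ℕ | 1 ≤ n ∧ t < ord n ∧ ord n ≤ t + T / 8 ∧
        ∀ k : ℤ, c ≤ |del n - α n - k / θ|}.ncard : ℝ) < c * (T / 8 * Real.log T)} := by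
      intro t ht
      exact ⟨ht.1, ht.2, hcon t ht.1 ht.2⟩
    have h3 := (measure_mono h2).trans h1
    rw [Real.volume_Icc, ENNReal.ofReal_le_ofReal_iff (by positivity)] at h3
    have h4 : T ^ (1 - δ) < T ^ (1 : ℝ) :=
      Real.rpow_lt_rpow_of_exponent_lt (by linarith) (by linarith)
    rw [Real.rpow_one] at h4
    linarith
  push Not at ht3
  have hsub : {n : ℕ | 1 ≤ n ∧ t < ord n ∧ ord n ≤ t + T / 8 ∧
      ∀ k : ℤ, c ≤ |del n - α n - k / θ|} ⊆
      {n : ℕ | 1 ≤ n ∧ ord n ≤ 3 * T ∧ ∀ k : ℤ, c ≤ |del n - α n - k / θ|} := by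
    rintro n ⟨g1, g2, g3, g4⟩
    exact ⟨g1, by linarith, g4⟩
  have hfin : {n : ℕ | 1 ≤ n ∧ ord n ≤ 3 * T ∧ ∀ k : ℤ, c ≤ |del n - α n - k / θ|}.Finite := by
    refine (Set.finite_Iic (NZ (3 * T))).subset ?_
    rintro n ⟨g1, g2, g3⟩
    exact (SG.ord_le_iff g1 _).mp g2
  have hle : ({n : ℕ | 1 ≤ n ∧ t < ord n ∧ ord n ≤ t + T / 8 ∧
      ∀ k : ℤ, c ≤ |del n - α n - k / θ|}.ncard : ℝ) ≤
      ({n : ℕ | 1 ≤ n ∧ ord n ≤ 3 * T ∧ ∀ k : ℤ, c ≤ |del n - α n - k / θ|}.ncard : ℝ) := by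
    exact_mod_cast Set.ncard_le_ncard hsub hfin
  calc c / 8 * (T * Real.log T) = c * (T / 8 * Real.log T) := by ring
    _ ≤ _ := ht3.trans hle

/-- the choice of the height -/
lemma choose_T (C T0 : ℝ) (hC : 0 < C) : ∃ N1 : ℕ, ∀ N : ℕ, N1 ≤ N → ∃ T : ℝ, T0 ≤ T ∧ T * Real.log T ≤ N / C ∧
    N / C / 2 ≤ T * Real.log T := by
  have hlim : Tendsto (fun N : ℕ => (N : ℝ) / C) atTop atTop :=
    tendsto_natCast_atTop_atTop.atTop_div_const hC
  set X : ℝ := max (max 4 T0) 1 with hX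
  obtain ⟨N1, hN1⟩ := (hlim.eventually_ge_atTop (max 3 ((2 * X) ^ 2))).exists_forall_of_atTop
  refine ⟨N1, fun N hNN => ?_⟩
  have hN := hN1 N hNN
  set y : ℝ := (N : ℝ) / C with hy
  have hy3 : 3 ≤ y := (le_max_left _ _).trans hN
  have hyX : (2 * X) ^ 2 ≤ y := (le_max_right _ _).trans hN
  have hy0 : 0 < y := by linarith
  have hX1 : 1 ≤ X := le_max_right _ _
  have hlogy : 1 ≤ Real.log y := by
    rw [Real.le_log_iff_exp_le hy0]
    have := Real.exp_one_lt_d9
    linarith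
  have hl0 : 0 < Real.log y := by linarith
  set T : ℝ := y / Real.log y with hT
  have hTX : X ≤ T := by
    rw [hT, le_div_iff₀ hl0]
    have h1 : Real.log y ≤ Real.sqrt y := by
      have h2 := log_le_half (Real.sqrt_pos.2 hy0)
      have h3 : Real.log y = 2 * Real.log (Real.sqrt y) := by
        rw [Real.log_sqrt hy0.le]; ring
      linarith
    have h2 : 2 * X ≤ Real.sqrt y := by
      rw [Real.le_sqrt (by positivity) hy0.le]
      exact hyX
    have h3 : Real.sqrt y * Real.sqrt y = y := Real.mul_self_sqrt hy0.le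
    nlinarith [Real.sqrt_nonneg y]
  have hT4 : 4 ≤ T := ((le_max_left _ _).trans (le_max_left _ _)).trans hTX
  have hTT0 : T0 ≤ T := ((le_max_right _ _).trans (le_max_left _ _)).trans hTX
  have hT0 : 0 < T := by linarith
  have hlogT : Real.log T = Real.log y - Real.log (Real.log y) := by
    rw [hT, Real.log_div hy0.ne' hl0.ne']
  have hll : 0 ≤ Real.log (Real.log y) := Real.log_nonneg hlogy
  have hll2 : Real.log (Real.log y) ≤ Real.log y / 2 := log_le_half hl0
  have h1 : T * Real.log T ≤ y := by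
    rw [hlogT]
    calc T * (Real.log y - Real.log (Real.log y)) ≤ T * Real.log y :=
          mul_le_mul_of_nonneg_left (by linarith) hT0.le
      _ = y := by rw [hT]; field_simp
  have h2 : y / 2 ≤ T * Real.log T := by
    rw [hlogT]
    calc y / 2 = T * (Real.log y / 2) := by rw [hT]; field_simp
      _ ≤ T * (Real.log y - Real.log (Real.log y)) :=
          mul_le_mul_of_nonneg_left (by linarith) hT0.le
  exact ⟨T, hTT0, h1, h2⟩

/-- a constant of modulus above `2` is far from every sequence on the unit circle -/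
lemma not_quiet_large {P : ℕ → ℂ} (hP : ∀ n, ‖P n‖ ≤ 1) {m0 : ℂ} (hm : 2 < ‖m0‖) {θ : ℝ} (hθ : 0 < θ) (hθ1 : θ ≤ 1)
    {L : ℕ} (hL : 1 ≤ L) (n : ℕ) : ¬ Quiet P m0 L (Bd θ L) n := by
  intro h
  have h1 := h L le_rfl
  have hLr : (1 : ℝ) ≤ L := by exact_mod_cast hL
  have h2 : (L : ℝ) ≤ ‖BS P m0 n L‖ := by
    unfold BS
    rw [Finset.sum_sub_distrib, Finset.sum_const, Finset.card_range, nsmul_eq_mul]
    have e1 := norm_sub_norm_le ((L : ℂ) * m0) (∑ i ∈ Finset.range L, P (n + i))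
    rw [norm_sub_rev, norm_mul, Complex.norm_natCast] at e1
    have e2 : ‖∑ i ∈ Finset.range L, P (n + i)‖ ≤ L := by
      refine (norm_sum_le _ _).trans ?_
      refine (Finset.sum_le_sum fun i _ => hP (n + i)).trans (le_of_eq ?_)
      rw [Finset.sum_const, Finset.card_range, nsmul_eq_mul, mul_one]
    nlinarith
  have h3 : Bd θ L < L := by
    unfold Bd
    have e1 : Real.sqrt θ ≤ 1 := by
      rw [Real.sqrt_le_one]
      exact hθ1
    have e2 : Real.sqrt L ≤ L := by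
      rw [Real.sqrt_le_left (by linarith)]
      nlinarith
    have e3 : 0 ≤ Real.sqrt L := Real.sqrt_nonneg _
    have e4 : 0 ≤ Real.sqrt θ := Real.sqrt_nonneg _
    calc Real.sqrt θ / 400 * Real.sqrt L ≤ 1 / 400 * L := by
          apply mul_le_mul _ e2 e3 (by norm_num)
          linarith
      _ < L := by linarith
  linarith

/-- the dichotomy -/
theorem dichotomy (hRH : RiemannHypothesis) (θ : ℝ) (hθ : 0 < θ) (hθ1 : θ ≤ 1) :
    ∃ L0 : ℕ, ∀ L : ℕ, L0 ≤ L → ∃ ρ : ℝ, 0 < ρ ∧ ∃ N1 : ℕ, ∀ N : ℕ, N1 ≤ N → ∀ (α : ℕ → ℝ) (m0 : ℂ),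
      ρ * N ≤ (loud (fun n => ee (θ * sq α n)) m0 L (Bd θ L) N : ℝ) ∨
      ρ * N ≤ ({n : ℕ | 1 ≤ n ∧ n ≤ N ∧ ∀ k : ℤ, ρ ≤ |del n - α n - k / θ|}.ncard : ℝ) := by
  classical
  obtain ⟨L0, hL01, h0⟩ := bad6 hRH θ hθ hθ1
  refine ⟨L0, fun L hL => ?_⟩
  obtain ⟨ρ0, c, ε, δ, hρ0, hc, hε, hδ, T0, hT0, hb⟩ := h0 L hL
  obtain ⟨c', hc', T1, hT1, hcount⟩ := count_of_bad θ c ε δ hθ hc hε hδ
  obtain ⟨Cz, hCz, hNZ3⟩ := NZ_three
  obtain ⟨N1, hN1⟩ := choose_T (Cz + 1) (max T0 T1) (by positivity)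
  have hCp : 0 < Cz + 1 := by positivity
  obtain ⟨ρ, hρ⟩ : ∃ ρ : ℝ, ρ = min (min 1 c') (min (c' / (16 * (Cz + 1))) (ρ0 / (2 * (Cz + 1)))) := ⟨_, rfl⟩
  have hρ1 : ρ ≤ 1 := by rw [hρ]; exact (min_le_left _ _).trans (min_le_left _ _)
  have hρ2 : ρ ≤ c' := by rw [hρ]; exact (min_le_left _ _).trans (min_le_right _ _)
  have hρ3 : ρ ≤ c' / (16 * (Cz + 1)) := by rw [hρ]; exact (min_le_right _ _).trans (min_le_left _ _)
  have hρ4 : ρ ≤ ρ0 / (2 * (Cz + 1)) := by rw [hρ]; exact (min_le_right _ _).trans (min_le_right _ _)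
  refine ⟨ρ, by rw [hρ]; positivity, N1, fun N hN α m0 => ?_⟩
  have hN0 : (0 : ℝ) ≤ N := Nat.cast_nonneg _
  by_cases hm : 2 < ‖m0‖
  · left
    have h1 : loud (fun n => ee (θ * sq α n)) m0 L (Bd θ L) N = N := by
      unfold loud
      rw [Finset.filter_true_of_mem fun n _ => not_quiet_large (fun n => (ee_norm _).le) hm hθ hθ1 (hL01.trans hL) n,
        Finset.card_range]
    rw [h1]
    nlinarith
  rw [not_lt] at hm
  obtain ⟨T, hT, hup, hlow⟩ := hN1 N hN
  have hTT0 : T0 ≤ T := (le_max_left _ _).trans hT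
  have hTT1 : T1 ≤ T := (le_max_right _ _).trans hT
  have hT100 : 100 ≤ T := hT0.trans hTT0
  have hlogT : 1 ≤ Real.log T := by
    rw [Real.le_log_iff_exp_le (by linarith)]
    have := Real.exp_one_lt_d9
    linarith
  have hTl : 2 ≤ T * Real.log T := by nlinarith
  rw [le_div_iff₀ hCp] at hup
  have hNZ : NZ (3 * T) + 2 ≤ N := by
    have g1 := hNZ3 T (by linarith)
    have g2 : ((NZ (3 * T) + 2 : ℕ) : ℝ) ≤ N := by
      push_cast
      nlinarith
    exact_mod_cast g2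
  have hlow' : (N : ℝ) / (2 * (Cz + 1)) ≤ T * Real.log T := by
    rw [div_div, mul_comm (Cz + 1) 2] at hlow
    exact hlow
  by_cases hl : (loud (fun n => ee (θ * sq α n)) m0 L (Bd θ L) N : ℝ) ≤ ρ0 * (T * Real.log T)
  · right
    have h1 := hcount α T hTT1 (hb α m0 hm T hTT0 N hNZ hl)
    have hsub : {n : ℕ | 1 ≤ n ∧ ord n ≤ 3 * T ∧ ∀ k : ℤ, c' ≤ |del n - α n - k / θ|} ⊆
        {n : ℕ | 1 ≤ n ∧ n ≤ N ∧ ∀ k : ℤ, ρ ≤ |del n - α n - k / θ|} := by
      rintro n ⟨g1, g2, g3⟩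
      have g4 := (SG.ord_le_iff g1 _).mp g2
      exact ⟨g1, by omega, fun k => hρ2.trans (g3 k)⟩
    have hfin : {n : ℕ | 1 ≤ n ∧ n ≤ N ∧ ∀ k : ℤ, ρ ≤ |del n - α n - k / θ|}.Finite :=
      (Set.finite_Iic N).subset fun n hn => hn.2.1
    have hle : ({n : ℕ | 1 ≤ n ∧ ord n ≤ 3 * T ∧ ∀ k : ℤ, c' ≤ |del n - α n - k / θ|}.ncard : ℝ) ≤
        ({n : ℕ | 1 ≤ n ∧ n ≤ N ∧ ∀ k : ℤ, ρ ≤ |del n - α n - k / θ|}.ncard : ℝ) := by
      exact_mod_cast Set.ncard_le_ncard hsub hfin
    refine le_trans ?_ (h1.trans hle)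
    calc ρ * (N : ℝ) ≤ c' / (16 * (Cz + 1)) * N := mul_le_mul_of_nonneg_right hρ3 hN0
      _ = c' / 8 * (N / (2 * (Cz + 1))) := by field_simp; ring
      _ ≤ c' / 8 * (T * Real.log T) := mul_le_mul_of_nonneg_left hlow' (by positivity)
  · left
    rw [not_le] at hl
    refine le_trans ?_ hl.le
    calc ρ * (N : ℝ) ≤ ρ0 / (2 * (Cz + 1)) * N := mul_le_mul_of_nonneg_right hρ4 hN0
      _ = ρ0 * (N / (2 * (Cz + 1))) := by ring
      _ ≤ ρ0 * (T * Real.log T) := mul_le_mul_of_nonneg_left hlow' hρ0.le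

end Run7.h613.QP
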